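import Pool.Agent.Lib.MP_1a91b9_ntE.D.Defs

/-!
# MP_1a91b9_nt (TwistDensity), even classes: the matrix of a squarefree integer for the class `c`
-/

set_option autoImplicit false

namespace Pool.Agent.Lib.MP_1a91b9_ntE

open Finset Pool.Agent.Lib.MP_1a91b9_ntH

noncomputable section

variable {ι : Type} [DecidableEq ι]

/-- The matrix of a squarefree integer for the even class `c`: the matrix of the odd class `c` with
the symbols of `2` added on the diagonal, and one more row and column. -/
def DatE.NE (D : DatE ι) (c : F4) (S : Finset ι) : Matrix (S ⊕ Unit) (S ⊕ Unit) F4 :=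
  Matrix.fromBlocks
    (fun i j => if i = j then F4.cj (D.a i) + F4.of (F4.tr (c * D.a i)) + F4.of (D.g i) +
      ∑ k ∈ S.erase (i : ι), F4.of (D.s i k) else F4.of (D.s i j))
    (fun i _ => D.a i)
    (fun _ j => F4.of (F4.tr (D.a j) + D.g j))
    (fun _ _ => c)

/-- The sum of phase 1 over the sets with the sign `-1` of `-2`. -/
def DatE.KAP (D : DatE ι) (T : Finset ι) : F4 :=
  ∑ S ∈ T.powerset, if ∑ q ∈ S, (F4.tr (D.a q) + D.g q) = 1 then
    (D.M S).det * ∏ q ∈ T \ S, (D.a q + ∑ p ∈ S, F4.of (D.s q p)) else 0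

end

end Pool.Agent.Lib.MP_1a91b9_ntE
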