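import Pool.Agent.Lib.MP_1a91b9_ntH.D.Exp

/-!
# MP_1a91b9_nt (TwistDensity), even classes, part D: the engine with one more character

`g q` is the symbol of `2` at `q`. The linear term of a label `l` is `tr (gam l * A) + del l * G`.
-/

set_option autoImplicit false

namespace Pool.Agent.Lib.MP_1a91b9_ntE

open Finset Pool.Agent.Lib.MP_1a91b9_ntH

noncomputable section

/-- The symbols, the classes modulo 4 and one more character. -/
structure DatE (ι : Type) extends Dat ι where
  g : ι → ZMod 2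

/-- A label system with one more linear term. -/
structure LSysE (L : Type) extends LSys L where
  del : L → ZMod 2

section Sys

variable {ι : Type} [DecidableEq ι]

/-- The value of the additional character on a squarefree integer. -/
def DatE.G (D : DatE ι) (S : Finset ι) : ZMod 2 := ∑ q ∈ S, D.g q

/-- The quadratic characters. -/
def DatE.ch (D : DatE ι) (T : Finset ι) (c : F4) (e : ZMod 2) (q : ι) : ℝ :=
  if q ∈ T then 0 else sg (F4.tr (c * D.a q) + e * D.g q + ∑ p ∈ T, D.s q p)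

/-- The nontrivial quadratic characters have bounded Euler products. -/
def DatE.CB (D : DatE ι) [PS ι] (C : ℝ) : Prop :=
  ∀ (T : Finset ι) (c : F4) (e : ZMod 2), (T ≠ ∅ ∨ c ≠ 0 ∨ e ≠ 0) →
    CharB (D.ch T c e) (C * (1 + Real.log (nm T)))

/-- The mean values of the nontrivial characters modulo 8 on squarefree integers are zero. -/
def DatE.H3 (D : DatE ι) [PS ι] : Prop :=
  ∀ (c : F4) (e : ZMod 2), (c ≠ 0 ∨ e ≠ 0) → ∀ ε : ℝ, 0 < ε → ∃ X₀ : ℕ, ∀ X : ℕ, X₀ ≤ X →
    |∑ S ∈ Sx ι X, sg (F4.tr (c * D.A S) + e * D.G S)| ≤ ε * X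

/-- All the hypotheses on the system. -/
structure DatE.OK (D : DatE ι) [PS ι] : Prop where
  rec_ : D.Rec
  cheb : ∃ C, Cheb ι C
  zt : ∃ C, Zt ι C
  cb : ∃ C, D.CB C
  h3 : D.H3
  bl : ∃ C K c, 0 < c ∧ D.BL C K c

/-- The system without the additional character satisfies the hypotheses of phase 1. -/
theorem DatE.OK.toOK {D : DatE ι} [PS ι] (h : D.OK) : D.toDat.OK where
  rec_ := h.rec_
  cheb := h.cheb
  zt := h.zt
  cb := by
    obtain ⟨C, hC⟩ := h.cb
    refine ⟨C, fun T c hT => ?_⟩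
    have h1 := hC T c 0 (by tauto)
    have h2 : D.ch T c 0 = D.toDat.ch T c := by
      funext q
      unfold DatE.ch Dat.ch
      rw [zero_mul, add_zero]
    rwa [h2] at h1
  h3 := by
    intro c hc ε hε
    obtain ⟨X₀, h1⟩ := h.h3 c 0 (Or.inl hc) ε hε
    refine ⟨X₀, fun X hX => ?_⟩
    have h2 := h1 X hX
    simp only [zero_mul, add_zero] at h2
    exact h2
  bl := h.bl

theorem G_union (D : DatE ι) {S T : Finset ι} (h : Disjoint S T) : D.G (S ∪ T) = D.G S + D.G T :=
  sum_union h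

omit [DecidableEq ι] in
theorem G_empty (D : DatE ι) : D.G ∅ = 0 := sum_empty

variable {L : Type} [Fintype L] [DecidableEq L]

/-- The additional exponent of a family. -/
def DatE.xx (D : DatE ι) (Λ : LSysE L) (d : L → Finset ι) : ZMod 2 := ∑ l, Λ.del l * D.G (d l)

/-- The exponent of a family. -/
def DatE.ee (D : DatE ι) (Λ : LSysE L) (d : L → Finset ι) : ZMod 2 :=
  D.toDat.ee Λ.toLSys d + D.xx Λ d

/-- The summand after expansion. -/
def DatE.FF (D : DatE ι) (Λ : LSysE L) (d : L → Finset ι) : ℝ :=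
  ((Λ.m : ℝ)⁻¹) ^ (uni d).card * sg (D.ee Λ d)

/-- The exponent of a labelling of `S`. -/
def DatE.eS (D : DatE ι) (Λ : LSysE L) (S : Finset ι) (f : S → L) : ZMod 2 :=
  D.toDat.eS Λ.toLSys S f + ∑ j : S, Λ.del (f j) * D.g j

open Classical in
/-- The contribution of a maximal unlinked set. -/
def LSysE.cU (Λ : LSysE L) (U : Finset L) : ℝ :=
  if ∀ l ∈ U, Λ.del l = 0 then Λ.toLSys.cU U else 0

omit [DecidableEq L] in
theorem FF_eq (D : DatE ι) (Λ : LSysE L) (d : L → Finset ι) :
    D.FF Λ d = D.toDat.FF Λ.toLSys d * sg (D.xx Λ d) := by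
  unfold DatE.FF Dat.FF DatE.ee
  rw [sgD_add]
  ring

omit [DecidableEq L] in
theorem FF_abs (D : DatE ι) (Λ : LSysE L) (d : L → Finset ι) :
    |D.FF Λ d| = |D.toDat.FF Λ.toLSys d| := by
  rw [FF_eq, abs_mul, sgD_abs, mul_one]

end Sys

end

end Pool.Agent.Lib.MP_1a91b9_ntE
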