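import Pool.Agent.Lib.MP_1a91b9_ntE.D.Inner

/-!
# Even classes, part D: bounds for the local factor (model: phase 1, `D/HBound.lean`)
-/

set_option autoImplicit false
set_option linter.unusedSectionVars false

namespace Pool.Agent.Lib.MP_1a91b9_ntE

open Finset Pool.Agent.Lib.MP_1a91b9_ntH

noncomputable section

variable {ι : Type} [DecidableEq ι] {L : Type} [Fintype L] [DecidableEq L]

private theorem hbound_add_self (x : ZMod 2) : x + x = 0 := CharTwo.add_self_eq_zero x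

private theorem hbound_of (z : ZMod 2) (y : F4) : z * F4.tr y = F4.tr (F4.of z * y) := by
  revert z y
  decide

private theorem hbound_two (x y : ZMod 2) : |sg x + sg y| = 1 + sg (x + y) := by
  have h : ∀ z : ZMod 2, z = 0 ∨ z = 1 := by decide
  have h10 : ¬ ((1 : ZMod 2) = 0) := by decide
  have h11 : (1 : ZMod 2) + 1 = 0 := by decide
  rcases h x with rfl | rfl <;> rcases h y with rfl | rfl
  · simp only [sg, add_zero, if_true]
    norm_num
  · simp only [sg, zero_add, if_true, if_neg h10]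
    norm_num
  · simp only [sg, add_zero, if_true, if_neg h10]
    norm_num
  · simp only [sg, h11, if_true, if_neg h10]
    norm_num

private theorem hbound_sum (U : Finset L) (x : L → ZMod 2) (l l' : L) (hl : l ∈ U) (hl' : l' ∈ U)
    (hne : l ≠ l') : |∑ k ∈ U, sg (x k)| ≤ ((U.card : ℝ) - 1) + sg (x l + x l') := by
  have h1 : l' ∈ U.erase l := mem_erase.2 ⟨hne.symm, hl'⟩
  have e1 : ∑ k ∈ U, sg (x k) = (sg (x l) + sg (x l')) + ∑ k ∈ (U.erase l).erase l', sg (x k) := by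
    rw [← add_sum_erase U _ hl, ← add_sum_erase (U.erase l) _ h1]
    ring
  have c1 : (((U.erase l).erase l').card : ℝ) = (U.card : ℝ) - 2 := by
    have a1 := card_erase_add_one hl
    have a2 := card_erase_add_one h1
    have a3 : ((U.erase l).erase l').card + 2 = U.card := by omega
    rw [← a3]
    push_cast
    ring
  rw [e1]
  refine (abs_add_le _ _).trans ?_
  rw [hbound_two]
  have h2 : |∑ k ∈ (U.erase l).erase l', sg (x k)| ≤ (U.card : ℝ) - 2 := by
    refine (abs_sum_le_sum_abs _ _).trans ?_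
    rw [← c1]
    simp only [sgD_abs, sum_const, nsmul_eq_mul, mul_one]
    exact le_refl _
  linarith

/-- The exponent of the local factor. -/
private def hboundX (D : DatE ι) (Λ : LSysE L) (b : L → Finset ι) (h : L → F4) (q : ι) (l : L) : ZMod 2 :=
  F4.tr (h l * D.a q) + Λ.del l * D.g q +
    ∑ m, (Λ.Phi l m * D.ss {q} (b m) + Λ.Phi m l * D.ss (b m) {q})

private theorem hbound_Hq (D : DatE ι) (Λ : LSysE L) (U : Finset L) (b : L → Finset ι) (h : L → F4)
    (q : ι) : D.Hq Λ U b h q = (∑ l ∈ U, sg (hboundX D Λ b h q l)) / Λ.m := rfl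

/-- The linear term of the local factor. -/
private def hboundE (D : DatE ι) (Λ : LSysE L) (b : L → Finset ι) (h : L → F4) (l : L) : F4 :=
  h l + ∑ m, F4.of (Λ.Phi m l) * D.A (b m)

private theorem hboundX_eq (D : DatE ι) (hD : D.Rec) (Λ : LSysE L) (b : L → Finset ι) (h : L → F4)
    (q : ι) (hq : q ∉ uni b) (l : L) :
    hboundX D Λ b h q l =
      F4.tr (hboundE D Λ b h l * D.a q) + Λ.del l * D.g q + ∑ m, Λ.lk l m * D.ss {q} (b m) := by
  have key : ∀ m : L, Λ.Phi l m * D.ss {q} (b m) + Λ.Phi m l * D.ss (b m) {q} =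
      F4.tr (F4.of (Λ.Phi m l) * D.A (b m) * D.a q) + Λ.lk l m * D.ss {q} (b m) := by
    intro m
    have hdis : Disjoint ({q} : Finset ι) (b m) :=
      disjoint_singleton_left.2 fun hm => hq (mem_uni.2 ⟨m, hm⟩)
    have h1 := ssD_rec D.toDat hD hdis
    have hA : D.A {q} = D.a q := sum_singleton _ _
    rw [hA] at h1
    have h2 : D.ss (b m) {q} = D.ss {q} (b m) + F4.tr (D.a q * D.A (b m)) := by
      rw [← h1, ← add_assoc, hbound_add_self, zero_add]
    rw [h2]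
    have h3 : F4.tr (F4.of (Λ.Phi m l) * D.A (b m) * D.a q) =
        Λ.Phi m l * F4.tr (D.a q * D.A (b m)) := by
      rw [hbound_of, mul_assoc, mul_comm (D.A (b m))]
    rw [h3, LSys.lk]
    ring
  unfold hboundX hboundE
  rw [sum_congr rfl fun m _ => key m, sum_add_distrib, add_mul, trD_add, sum_mul, trD_sum]
  ring

theorem Hq_bound (D : DatE ι) (hD : D.Rec) (Λ : LSysE L) (hΛ : Λ.OK) (U : Finset L) (hU : U ∈ Λ.Us)
    (b : L → Finset ι) (hb : PD b) (hbU : ∀ l ∈ U, b l = ∅) (hne : uni b ≠ ∅) (h : L → F4) :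
    ∃ (T : Finset ι) (c : F4) (e : ZMod 2), T ≠ ∅ ∧ T ⊆ uni b ∧ ∀ q, q ∉ uni b →
      |D.Hq Λ U b h q| ≤ ((Λ.m - 1 : ℝ) + D.ch T c e q) / Λ.m := by
  classical
  obtain ⟨hU1, hU2⟩ := (Λ.mem_Us U).1 hU
  obtain ⟨p0, hp0⟩ := nonempty_iff_ne_empty.2 hne
  obtain ⟨m0, hm0⟩ := mem_uni.1 hp0
  have hm0U : m0 ∉ U := fun hm => by
    rw [hbU m0 hm] at hm0
    exact absurd hm0 (notMem_empty _)
  obtain ⟨l, hl, l', hl', hll⟩ := hΛ.k2 U hU1 hU2 m0 hm0U
  have hne' : l ≠ l' := fun e => hll (by rw [e])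
  set W : Finset L := univ.filter fun m => Λ.lk l m ≠ Λ.lk l' m with hW
  refine ⟨W.biUnion b, hboundE D Λ b h l + hboundE D Λ b h l', Λ.del l + Λ.del l', ?_, ?_, ?_⟩
  · refine nonempty_iff_ne_empty.1 ⟨p0, mem_biUnion.2 ⟨m0, ?_, hm0⟩⟩
    rw [hW, mem_filter]
    exact ⟨mem_univ _, hll⟩
  · intro p hp
    obtain ⟨m, -, hm⟩ := mem_biUnion.1 hp
    exact mem_uni.2 ⟨m, hm⟩
  · intro q hq
    have hqT : q ∉ W.biUnion b := fun hp => by
      obtain ⟨m, -, hm⟩ := mem_biUnion.1 hp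
      exact hq (mem_uni.2 ⟨m, hm⟩)
    have hx : hboundX D Λ b h q l + hboundX D Λ b h q l' =
        F4.tr ((hboundE D Λ b h l + hboundE D Λ b h l') * D.a q) + (Λ.del l + Λ.del l') * D.g q +
          ∑ p ∈ W.biUnion b, D.s q p := by
      rw [hboundX_eq D hD Λ b h q hq l, hboundX_eq D hD Λ b h q hq l', add_mul, trD_add]
      have hs : ∑ p ∈ W.biUnion b, D.s q p =
          ∑ m, Λ.lk l m * D.ss {q} (b m) + ∑ m, Λ.lk l' m * D.ss {q} (b m) := by
        rw [sum_biUnion (fun m _ n _ hmn => hb m n hmn), hW, sum_filter, ← sum_add_distrib]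
        refine sum_congr rfl fun m _ => ?_
        have hss : D.ss {q} (b m) = ∑ p ∈ b m, D.s q p := sum_singleton _ _
        rw [← hss, ← add_mul]
        have hz : ∀ x y : ZMod 2, x ≠ y → x + y = 1 := by decide
        by_cases hlm : Λ.lk l m = Λ.lk l' m
        · rw [if_neg (not_not.2 hlm), hlm, hbound_add_self, zero_mul]
        · rw [if_pos hlm, hz _ _ hlm, one_mul]
      rw [hs]
      ring
    have hch : D.ch (W.biUnion b) (hboundE D Λ b h l + hboundE D Λ b h l') (Λ.del l + Λ.del l') q =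
        sg (hboundX D Λ b h q l + hboundX D Λ b h q l') := by
      rw [DatE.ch, if_neg hqT, hx]
    have hm0 : (0 : ℝ) ≤ (Λ.m : ℝ) := Nat.cast_nonneg _
    rw [hbound_Hq, abs_div, abs_of_nonneg hm0, hch]
    refine div_le_div_of_nonneg_right ?_ hm0
    have h1 := hbound_sum U (hboundX D Λ b h q) l l' hl hl' hne'
    rw [hU2] at h1
    exact h1

private theorem hboundX_empty (D : DatE ι) (Λ : LSysE L) (h : L → F4) (q : ι) (l : L) :
    hboundX D Λ (fun _ => ∅) h q l = F4.tr (h l * D.a q) + Λ.del l * D.g q := by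
  have h1 : D.ss {q} ∅ = 0 := by
    unfold Dat.ss
    simp only [sum_empty, sum_const_zero]
  have h2 : D.ss ∅ {q} = 0 := by
    unfold Dat.ss
    exact sum_empty
  unfold hboundX
  simp only [h1, h2, mul_zero, add_zero, sum_const_zero]

theorem Hq_bound0 (D : DatE ι) (Λ : LSysE L) (hΛ : Λ.OK) (U : Finset L) (hU : U ∈ Λ.Us)
    (h : L → F4) (l l' : L) (hl : l ∈ U) (hl' : l' ∈ U) (hh : h l ≠ h l' ∨ Λ.del l ≠ Λ.del l') :
    ∃ (c : F4) (e : ZMod 2), (c ≠ 0 ∨ e ≠ 0) ∧ ∀ q,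
      |D.Hq Λ U (fun _ => ∅) h q| ≤ ((Λ.m - 1 : ℝ) + D.ch ∅ c e q) / Λ.m := by
  obtain ⟨-, hU2⟩ := (Λ.mem_Us U).1 hU
  have hne' : l ≠ l' := fun e => by
    rw [e] at hh
    exact hh.elim (fun h => h rfl) fun h => h rfl
  refine ⟨h l + h l', Λ.del l + Λ.del l', hh.imp (fun e h0 => e (CharTwo.add_eq_zero.1 h0))
    (fun e h0 => e (CharTwo.add_eq_zero.1 h0)), fun q => ?_⟩
  have hch : D.ch ∅ (h l + h l') (Λ.del l + Λ.del l') q =
      sg (hboundX D Λ (fun _ => ∅) h q l + hboundX D Λ (fun _ => ∅) h q l') := by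
    rw [DatE.ch, if_neg (notMem_empty q), hboundX_empty, hboundX_empty, add_mul, trD_add, sum_empty,
      add_zero, add_mul]
    congr 1
    ring
  have hm0 : (0 : ℝ) ≤ (Λ.m : ℝ) := Nat.cast_nonneg _
  rw [hbound_Hq, abs_div, abs_of_nonneg hm0, hch]
  refine div_le_div_of_nonneg_right ?_ hm0
  have h1 := hbound_sum U (hboundX D Λ (fun _ => ∅) h q) l l' hl hl' hne'
  rw [hU2] at h1
  exact h1

theorem Hq_const (D : DatE ι) (Λ : LSysE L) (hΛ : Λ.OK) (U : Finset L) (hU : U ∈ Λ.Us)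
    (h : L → F4) (h0 : F4) (e0 : ZMod 2) (hh : ∀ l ∈ U, h l = h0) (he : ∀ l ∈ U, Λ.del l = e0)
    (q : ι) : D.Hq Λ U (fun _ => ∅) h q = sg (F4.tr (h0 * D.a q) + e0 * D.g q) := by
  obtain ⟨-, hU2⟩ := (Λ.mem_Us U).1 hU
  have hm : (Λ.m : ℝ) ≠ 0 := by
    have := hΛ.two
    exact Nat.cast_ne_zero.2 (by omega)
  rw [hbound_Hq]
  have h1 : ∑ l ∈ U, sg (hboundX D Λ (fun _ => ∅) h q l) =
      Λ.m * sg (F4.tr (h0 * D.a q) + e0 * D.g q) := by
    rw [sum_congr rfl fun l hl => show sg (hboundX D Λ (fun _ => ∅) h q l) =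
      sg (F4.tr (h0 * D.a q) + e0 * D.g q) by rw [hboundX_empty, hh l hl, he l hl], sum_const, hU2,
      nsmul_eq_mul]
  rw [h1, mul_div_cancel_left₀ _ hm]

end

end Pool.Agent.Lib.MP_1a91b9_ntE
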