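import Pool.Agent.Lib.MP_1a91b9_ntH.D.DivLog
import Pool.Agent.Lib.MP_1a91b9_ntE.D.HBound

/-!
# Even classes, part D: the main term

The sum over families supported on a maximal unlinked set `U` is `cU U` times the number of
squarefree integers, up to a small error.
-/

set_option autoImplicit false

namespace Pool.Agent.Lib.MP_1a91b9_ntE

open Finset Pool.Agent.Lib.MP_1a91b9_ntH

noncomputable section

variable {ι : Type} [DecidableEq ι] [PS ι] {L : Type} [Fintype L] [DecidableEq L]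

omit [PS ι] [DecidableEq L] in
private theorem innerT_uni : uni (fun _ : L => (∅ : Finset ι)) = ∅ := by
  classical
  ext q
  simp [uni]

omit [DecidableEq ι] [PS ι] [DecidableEq L] in
private theorem innerT_ee (D : DatE ι) (Λ : LSysE L) : D.ee Λ (fun _ : L => (∅ : Finset ι)) = 0 := by
  have h0 : F4.tr 0 = 0 := by decide
  simp [DatE.ee, DatE.xx, DatE.G, Dat.ee, Dat.A, Dat.ss, h0]

private theorem innerT_sum (D : DatE ι) (hD : D.OK) (Λ : LSysE L) (hΛ : Λ.OK) (X : ℕ) (U : Finset L)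
    (hU : Λ.Unl U) :
    ∑ S ∈ Sx ι X, ∑ d ∈ FamU U S, D.FF Λ d =
      ∑ h : L → F4, Λ.gh U h * ∑ S ∈ Sx ι X, ∏ q ∈ S, D.Hq Λ U (fun _ => ∅) h q := by
  have h1 : ∀ S ∈ Sx ι X, ∑ d ∈ FamU U S, D.FF Λ d =
      ∑ h : L → F4, Λ.gh U h * ∏ q ∈ S, D.Hq Λ U (fun _ => ∅) h q := by
    intro S _
    have h2 := inner_eq D hD.rec_ Λ hΛ U hU (fun _ => ∅) (fun _ _ _ => disjoint_empty_left _)
      (fun _ _ => rfl) S (by rw [innerT_uni]; exact disjoint_empty_right _)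
    rw [innerT_uni, innerT_ee] at h2
    simpa [sg] using h2
  rw [sum_congr rfl h1, sum_comm]
  refine sum_congr rfl fun h _ => ?_
  rw [mul_sum]

private theorem innerT_small (δ K B ε : ℝ) (hδ : 0 < δ) (hK : 0 < K) (hB : 1 ≤ B) (hε : 0 < ε) :
    ∃ X₀ : ℕ, ∀ X : ℕ, X₀ ≤ X → K * X * Real.log X ^ (-δ) * B ^ δ ≤ ε * X := by
  have h1 : Filter.Tendsto (fun X : ℕ => Real.log (X : ℝ) ^ (-δ)) Filter.atTop (nhds 0) :=
    (tendsto_rpow_neg_atTop hδ).comp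
      (Real.tendsto_log_atTop.comp tendsto_natCast_atTop_atTop)
  have hP : 0 < K * B ^ δ := mul_pos hK (Real.rpow_pos_of_pos (by linarith) _)
  have h2 : ∀ᶠ X : ℕ in Filter.atTop, Real.log (X : ℝ) ^ (-δ) < ε / (K * B ^ δ) :=
    h1.eventually (gt_mem_nhds (div_pos hε hP))
  obtain ⟨X₀, h3⟩ := Filter.eventually_atTop.1 h2
  refine ⟨X₀, fun X hX => ?_⟩
  have h4 := h3 X hX
  rw [lt_div_iff₀ hP] at h4
  have h5 : K * X * Real.log X ^ (-δ) * B ^ δ = (Real.log (X : ℝ) ^ (-δ) * (K * B ^ δ)) * X := by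
    ring
  rw [h5]
  exact mul_le_mul_of_nonneg_right h4.le (Nat.cast_nonneg X)

open Classical in
private theorem innerT_one (D : DatE ι) (hD : D.OK) (Λ : LSysE L) (hΛ : Λ.OK) (ε : ℝ) (hε : 0 < ε)
    (U : Finset L) (hU : U ∈ Λ.Us) (h : L → F4) :
    ∃ X₀ : ℕ, ∀ X : ℕ, X₀ ≤ X →
      |Λ.gh U h * ∑ S ∈ Sx ι X, ∏ q ∈ S, D.Hq Λ U (fun _ => ∅) h q -
        (if h = 0 then Λ.cU U * (Sx ι X).card else 0)| ≤ ε * X := by
  have hU' := (Λ.mem_Us U).1 hU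
  have hm := hΛ.two
  have hne : U.Nonempty := by
    rw [← card_pos, hU'.2]
    omega
  by_cases hA : ∃ l, l ∉ U ∧ h l ≠ 0
  · obtain ⟨l, hl, hhl⟩ := hA
    have hh : h ≠ 0 := fun e => hhl (by rw [e]; rfl)
    refine ⟨0, fun X _ => ?_⟩
    rw [gh_supp Λ.toLSys U h l hl hhl, if_neg hh]
    simp only [zero_mul, sub_zero, abs_zero]
    positivity
  have hA' : ∀ l, l ∉ U → h l = 0 := fun l hl => by
    by_contra hc
    exact hA ⟨l, hl, hc⟩
  by_cases hB : ∃ l ∈ U, ∃ l' ∈ U, h l ≠ h l' ∨ Λ.del l ≠ Λ.del l'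
  · obtain ⟨l, hl, l', hl', hll⟩ := hB
    have hz : ∀ X : ℕ, (if h = 0 then Λ.cU U * (Sx ι X).card else 0 : ℝ) = 0 := by
      intro X
      split_ifs with hh
      · rw [LSysE.cU, if_neg, zero_mul]
        intro hdel
        rcases hll with h1 | h1
        · exact h1 (by rw [hh]; rfl)
        · exact h1 (by rw [hdel l hl, hdel l' hl'])
      · rfl
    obtain ⟨c, e, hc, hH⟩ := Hq_bound0 D Λ hΛ U hU h l l' hl hl' hll
    obtain ⟨C, hC⟩ := hD.cb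
    obtain ⟨C1, hC1⟩ := hD.cheb
    obtain ⟨C2, hC2⟩ := hD.zt
    have hCB := hC ∅ c e (Or.inr hc)
    obtain ⟨K, hK, hub⟩ := ub hC1 hC2 Λ.m hm
    have hm0 : (0 : ℝ) < Λ.m := by
      have : 0 < Λ.m := by omega
      exact_mod_cast this
    obtain ⟨X₀, hX₀⟩ := innerT_small (1 / (Λ.m : ℝ)) K (C * (1 + Real.log (nm (∅ : Finset ι)))) ε
      (by positivity) hK hCB.hB hε
    refine ⟨max X₀ 2, fun X hX => ?_⟩
    rw [hz, sub_zero, abs_mul]
    have h1 : |∑ S ∈ Sx ι X, ∏ q ∈ S, D.Hq Λ U (fun _ => ∅) h q| ≤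
        ∑ S ∈ Sx ι X, ∏ q ∈ S, |D.Hq Λ U (fun _ => ∅) h q| := by
      refine (abs_sum_le_sum_abs _ _).trans (sum_le_sum fun S _ => ?_)
      rw [abs_prod]
    have h2 := hub (D.ch ∅ c e) _ hCB (fun q => |D.Hq Λ U (fun _ => ∅) h q|)
      (fun q => ⟨abs_nonneg _, hH q⟩) X ((le_max_right _ _).trans hX)
    have h3 := hX₀ X ((le_max_left _ _).trans hX)
    calc |Λ.gh U h| * |∑ S ∈ Sx ι X, ∏ q ∈ S, D.Hq Λ U (fun _ => ∅) h q|
        ≤ 1 * |∑ S ∈ Sx ι X, ∏ q ∈ S, D.Hq Λ U (fun _ => ∅) h q| :=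
          mul_le_mul_of_nonneg_right (gh_abs Λ.toLSys U h) (abs_nonneg _)
      _ ≤ ε * X := by
          rw [one_mul]
          exact h1.trans (h2.trans h3)
  have hB' : ∀ l ∈ U, ∀ l' ∈ U, h l = h l' ∧ Λ.del l = Λ.del l' := fun l hl l' hl' => by
    by_contra hc
    exact hB ⟨l, hl, l', hl', not_and_or.1 hc⟩
  obtain ⟨l₀, hl₀⟩ := hne
  have hconst : ∀ l ∈ U, h l = h l₀ := fun l hl => (hB' l hl l₀ hl₀).1
  have hconst' : ∀ l ∈ U, Λ.del l = Λ.del l₀ := fun l hl => (hB' l hl l₀ hl₀).2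
  have hHq : ∀ q, D.Hq Λ U (fun _ => ∅) h q = sg (F4.tr (h l₀ * D.a q) + Λ.del l₀ * D.g q) :=
    fun q => Hq_const D Λ hΛ U hU h (h l₀) (Λ.del l₀) hconst hconst' q
  by_cases h0 : h l₀ = 0 ∧ Λ.del l₀ = 0
  · have hh : h = 0 := by
      funext l
      by_cases hl : l ∈ U
      · rw [hconst l hl, h0.1]; rfl
      · rw [hA' l hl]; rfl
    have hH1 : ∀ q, D.Hq Λ U (fun _ => ∅) h q = 1 := fun q => by
      rw [hHq q, h0.1, h0.2, zero_mul, zero_mul]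
      have : F4.tr 0 = 0 := by decide
      rw [this]
      simp [sg]
    refine ⟨0, fun X _ => ?_⟩
    have hcU : Λ.cU U = Λ.toLSys.cU U := by
      rw [LSysE.cU, if_pos fun l hl => by rw [hconst' l hl, h0.2]]
    rw [if_pos hh, sum_congr rfl fun S _ => prod_congr rfl fun q _ => hH1 q, hh, gh_zero, hcU]
    simp only [prod_const_one, sum_const, nsmul_eq_mul, mul_one, sub_self, abs_zero]
    positivity
  · have h0' : h l₀ ≠ 0 ∨ Λ.del l₀ ≠ 0 := not_and_or.1 h0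
    have hz : ∀ X : ℕ, (if h = 0 then Λ.cU U * (Sx ι X).card else 0 : ℝ) = 0 := by
      intro X
      split_ifs with hh
      · rw [LSysE.cU, if_neg, zero_mul]
        intro hdel
        rcases h0' with h1 | h1
        · exact h1 (by rw [hh]; rfl)
        · exact h1 (hdel l₀ hl₀)
      · rfl
    obtain ⟨X₀, hX₀⟩ := hD.h3 (h l₀) (Λ.del l₀) h0' ε hε
    refine ⟨X₀, fun X hX => ?_⟩
    rw [hz, sub_zero, abs_mul]
    have h1 : ∀ S ∈ Sx ι X, ∏ q ∈ S, D.Hq Λ U (fun _ => ∅) h q =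
        sg (F4.tr (h l₀ * D.A S) + Λ.del l₀ * D.G S) := by
      intro S _
      rw [prod_congr rfl fun q _ => hHq q, ← sgD_sum, sum_add_distrib, ← trD_sum, ← mul_sum,
        ← mul_sum]
      rfl
    rw [sum_congr rfl h1]
    calc |Λ.gh U h| * |∑ S ∈ Sx ι X, sg (F4.tr (h l₀ * D.A S) + Λ.del l₀ * D.G S)|
        ≤ 1 * |∑ S ∈ Sx ι X, sg (F4.tr (h l₀ * D.A S) + Λ.del l₀ * D.G S)| :=
          mul_le_mul_of_nonneg_right (gh_abs Λ.toLSys U h) (abs_nonneg _)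
      _ ≤ ε * X := by
          rw [one_mul]
          exact hX₀ X hX

theorem inner_triv (D : DatE ι) (hD : D.OK) (Λ : LSysE L) (hΛ : Λ.OK) (ε : ℝ) (hε : 0 < ε) :
    ∃ X₀ : ℕ, ∀ X : ℕ, X₀ ≤ X → ∀ U ∈ Λ.Us,
      |∑ S ∈ Sx ι X, ∑ d ∈ FamU U S, D.FF Λ d - Λ.cU U * (Sx ι X).card| ≤ ε * X := by
  have hN : (0 : ℝ) < Fintype.card (L → F4) := by
    have : 0 < Fintype.card (L → F4) := Fintype.card_pos
    exact_mod_cast this
  have hε' : 0 < ε / Fintype.card (L → F4) := div_pos hε hN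
  have key : ∀ (U : Finset L) (h : L → F4), ∃ X₀ : ℕ, U ∈ Λ.Us → ∀ X : ℕ, X₀ ≤ X →
      |Λ.gh U h * ∑ S ∈ Sx ι X, ∏ q ∈ S, D.Hq Λ U (fun _ => ∅) h q -
        (if h = 0 then Λ.cU U * (Sx ι X).card else 0)| ≤ ε / Fintype.card (L → F4) * X := by
    intro U h
    by_cases hU : U ∈ Λ.Us
    · obtain ⟨X₀, hX₀⟩ := innerT_one D hD Λ hΛ _ hε' U hU h
      exact ⟨X₀, fun _ => hX₀⟩
    · exact ⟨0, fun hc => absurd hc hU⟩
  choose X0 hX0 using key
  refine ⟨univ.sup fun U : Finset L => univ.sup fun h : L → F4 => X0 U h, fun X hX U hU => ?_⟩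
  have hX' : ∀ h : L → F4, X0 U h ≤ X := fun h =>
    (le_sup (f := fun h : L → F4 => X0 U h) (mem_univ h)).trans
      ((le_sup (f := fun U : Finset L => univ.sup fun h : L → F4 => X0 U h)
        (mem_univ U)).trans hX)
  have h1 : (Λ.cU U * (Sx ι X).card : ℝ) =
      ∑ h : L → F4, (if h = 0 then Λ.cU U * (Sx ι X).card else 0) := by
    rw [sum_ite_eq' univ (0 : L → F4) (fun _ => Λ.cU U * ((Sx ι X).card : ℝ))]
    simp
  rw [innerT_sum D hD Λ hΛ X U ((Λ.mem_Us U).1 hU).1, h1, ← sum_sub_distrib]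
  refine (abs_sum_le_sum_abs _ _).trans ?_
  refine (sum_le_sum fun h _ => hX0 U h hU X (hX' h)).trans ?_
  rw [sum_const, card_univ, nsmul_eq_mul]
  apply le_of_eq
  field_simp

end

end Pool.Agent.Lib.MP_1a91b9_ntE
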