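import Pool.Agent.Lib.MP_1a91b9_ntE.D.KE
import Pool.Agent.Lib.MP_1a91b9_ntE.D.Mat
import Pool.Agent.Lib.MP_1a91b9_ntH2.D.Momc

/-!
# MP_1a91b9_nt (TwistDensity), even classes, part D: the matrix and the expansion of the powers of
the size of its kernel
-/

set_option autoImplicit false
set_option linter.unusedSectionVars false

namespace Pool.Agent.Lib.MP_1a91b9_ntE

open Finset Pool.Agent.Lib.MP_1a91b9_ntH Pool.Agent.Lib.MP_1a91b9_ntH.Da
  Pool.Agent.Lib.MP_1a91b9_ntH2.Db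

noncomputable section

variable {ι : Type} [DecidableEq ι]

/-- The block of the matrix of the even class `c`. -/
theorem NE_eq (D : DatE ι) (c : F4) (S : Finset ι) : D.NE c S =
    Matrix.fromBlocks ((twD c D.toDat).M S + Matrix.diagonal fun q : S => F4.of (D.g q))
      (Matrix.of fun (q : S) _ => D.a q)
      (Matrix.of fun _ (q : S) => F4.of (F4.tr (D.a q) + D.g q)) (Matrix.of fun _ _ => c) := by
  unfold DatE.NE
  congr 1
  refine Matrix.ext fun i j => ?_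
  have hd : ∀ (x : F4) (t : ZMod 2), F4.cj (x + F4.of t) = F4.cj x + F4.of t := by decide
  rw [Matrix.add_apply, Dat.M]
  by_cases h : i = j
  · subst h
    rw [Matrix.diagonal_apply_eq, if_pos rfl, if_pos rfl]
    show _ = F4.cj (D.a i + F4.of (F4.tr (c * D.a i))) + ∑ k ∈ S.erase (i : ι), F4.of (D.s i k) +
      F4.of (D.g i)
    rw [hd]
    ring
  · rw [Matrix.diagonal_apply_ne _ h, add_zero, if_neg h, if_neg h]
    rfl

/-- The number of elements of its kernel. -/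
def DatE.kcE (D : DatE ι) (c : F4) (S : Finset ι) : ℕ :=
  Fintype.card {v : S ⊕ Unit → F4 // (D.NE c S).mulVec v = 0}

namespace Dc

variable {k : ℕ}

/-- The label system of the `k`-th moment for the even class `c`. -/
def LSkE (k : ℕ) (c c' : F4) (x y : Fin k → F4) : LSysE (Lab k) where
  Phi := Phi
  gam := gamE c c' x y
  o := fun l => (Fintype.equivFin (Lab k) l : ℕ)
  m := 4 ^ k
  del := delE y

theorem dot_NE (D : DatE ι) (c : F4) (S : Finset ι) (v w : S ⊕ Unit → F4) :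
    F4.tr (w ⬝ᵥ (D.NE c S).mulVec v) =
      F4.tr ((fun j => w (Sum.inl j)) ⬝ᵥ ((twD c D.toDat).M S).mulVec fun j => v (Sum.inl j)) +
      ∑ j : S, F4.tr (w (Sum.inl j) * v (Sum.inl j)) * D.g j +
      ∑ j : S, F4.tr (v (Sum.inr ()) * w (Sum.inl j) * D.a j) +
      ∑ j : S, F4.tr (w (Sum.inr ()) * v (Sum.inl j)) * (F4.tr (D.a j) + D.g j) +
      F4.tr (c * (v (Sum.inr ()) * w (Sum.inr ()))) := by
  have h1 : ∀ j : S, (D.NE c S).mulVec v (Sum.inl j) =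
      ((twD c D.toDat).M S).mulVec (fun j => v (Sum.inl j)) j + F4.of (D.g j) * v (Sum.inl j) +
        D.a j * v (Sum.inr ()) := by
    intro j
    have e1 : ((twD c D.toDat).M S + Matrix.diagonal fun q : S => F4.of (D.g q)).mulVec
        (fun j => v (Sum.inl j)) j = ((twD c D.toDat).M S).mulVec (fun j => v (Sum.inl j)) j +
        F4.of (D.g j) * v (Sum.inl j) := by
      rw [Matrix.add_mulVec, Pi.add_apply, Matrix.mulVec_diagonal]
    rw [← e1]
    show ∑ i : S ⊕ Unit, (D.NE c S) (Sum.inl j) i * v i = _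
    rw [Fintype.sum_sum_type, NE_eq]
    congr 1
    rw [Fintype.sum_unique]
    rfl
  have h2 : (D.NE c S).mulVec v (Sum.inr ()) =
      ∑ j : S, F4.of (F4.tr (D.a j) + D.g j) * v (Sum.inl j) + c * v (Sum.inr ()) := by
    show ∑ i : S ⊕ Unit, (D.NE c S) (Sum.inr ()) i * v i = _
    rw [Fintype.sum_sum_type, NE_eq]
    congr 1
    rw [Fintype.sum_unique]
    rfl
  have h3 : w ⬝ᵥ (D.NE c S).mulVec v = ∑ j : S, w (Sum.inl j) * (D.NE c S).mulVec v (Sum.inl j) +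
      w (Sum.inr ()) * (D.NE c S).mulVec v (Sum.inr ()) := by
    rw [dotProduct, Fintype.sum_sum_type]
    congr 1
    rw [Fintype.sum_unique]
  rw [h3, h2]
  simp only [h1, mul_add, sum_add_distrib, F4.tr_add, F4.tr_sum, mul_sum]
  have e1 : ∀ j : S, F4.tr (w (Sum.inl j) * (F4.of (D.g j) * v (Sum.inl j))) =
      F4.tr (w (Sum.inl j) * v (Sum.inl j)) * D.g j := by
    intro j
    have hd : ∀ (x y : F4) (s : ZMod 2), F4.tr (x * (F4.of s * y)) = F4.tr (x * y) * s := by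
      decide
    exact hd _ _ _
  have e2 : ∀ j : S, F4.tr (w (Sum.inr ()) * (F4.of (F4.tr (D.a j) + D.g j) * v (Sum.inl j))) =
      F4.tr (w (Sum.inr ()) * v (Sum.inl j)) * F4.tr (D.a j) +
        F4.tr (w (Sum.inr ()) * v (Sum.inl j)) * D.g j := by
    intro j
    have hd : ∀ (x y : F4) (s : ZMod 2), F4.tr (x * (F4.of s * y)) = F4.tr (x * y) * s := by
      decide
    rw [hd, mul_add]
  have e3 : F4.tr ((fun j : S => w (Sum.inl j)) ⬝ᵥ ((twD c D.toDat).M S).mulVec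
      fun j => v (Sum.inl j)) = ∑ j : S, F4.tr (w (Sum.inl j) *
        ((twD c D.toDat).M S).mulVec (fun j => v (Sum.inl j)) j) := by
    rw [dotProduct, F4.tr_sum]
  have e4 : ∀ j : S, w (Sum.inl j) * (D.a j * v (Sum.inr ())) =
      v (Sum.inr ()) * w (Sum.inl j) * D.a j := fun j => by ring
  have e5 : w (Sum.inr ()) * (c * v (Sum.inr ())) = c * (v (Sum.inr ()) * w (Sum.inr ())) := by ring
  rw [e3, e5]
  simp only [e1, e2, e4, sum_add_distrib]
  ring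

/-- The exponent of `k` pairs of vectors. -/
theorem exp_eqN (D : DatE ι) (c c' : F4) (S : Finset ι)
    (g : Fin k → (S ⊕ Unit → F4) × (S ⊕ Unit → F4)) :
    ∑ i, F4.tr ((g i).2 ⬝ᵥ (D.NE c S).mulVec (g i).1) + F4.tr (c' * D.A S) =
      F4.tr (c * ((fun i => (g i).1 (Sum.inr ())) ⬝ᵥ fun i => (g i).2 (Sum.inr ()))) +
      D.eS (LSkE k c c' (fun i => (g i).1 (Sum.inr ())) fun i => (g i).2 (Sum.inr ())) S
        fun j => (fun i => (g i).1 (Sum.inl j), fun i => (g i).2 (Sum.inl j)) := by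
  set x : Fin k → F4 := fun i => (g i).1 (Sum.inr ()) with hx
  set y : Fin k → F4 := fun i => (g i).2 (Sum.inr ()) with hy
  set f : S → Lab k := fun j => (fun i => (g i).1 (Sum.inl j), fun i => (g i).2 (Sum.inl j)) with hf
  have h0 : ∑ i, F4.tr ((fun j : S => (g i).2 (Sum.inl j)) ⬝ᵥ
      ((twD c D.toDat).M S).mulVec fun j => (g i).1 (Sum.inl j)) = eS (twD c D.toDat) 0 S f :=
    exp_eq (twD c D.toDat) S fun i => (fun j => (g i).1 (Sum.inl j), fun j => (g i).2 (Sum.inl j))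
  have h1 : ∑ i, ∑ j : S, F4.tr ((g i).2 (Sum.inl j) * (g i).1 (Sum.inl j)) * D.g j =
      ∑ j : S, Qf (f j) * D.g j := by
    rw [sum_comm]
    refine sum_congr rfl fun j _ => ?_
    rw [← sum_mul, Qf, dotProduct, F4.tr_sum]
  have h2 : ∑ i, ∑ j : S, F4.tr ((g i).1 (Sum.inr ()) * (g i).2 (Sum.inl j) * D.a j) =
      ∑ j : S, F4.tr (x ⬝ᵥ (f j).2 * D.a j) := by
    rw [sum_comm]
    refine sum_congr rfl fun j _ => ?_
    rw [dotProduct, sum_mul, F4.tr_sum]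
  have h3 : ∑ i, ∑ j : S, F4.tr ((g i).2 (Sum.inr ()) * (g i).1 (Sum.inl j)) *
      (F4.tr (D.a j) + D.g j) = ∑ j : S, F4.tr (y ⬝ᵥ (f j).1) * (F4.tr (D.a j) + D.g j) := by
    rw [sum_comm]
    refine sum_congr rfl fun j _ => ?_
    rw [← sum_mul, dotProduct, F4.tr_sum]
  have h4 : ∑ i, F4.tr (c * ((g i).1 (Sum.inr ()) * (g i).2 (Sum.inr ()))) =
      F4.tr (c * (x ⬝ᵥ y)) := by
    rw [dotProduct, mul_sum, F4.tr_sum]
  have h5 : ∑ i, F4.tr ((g i).2 ⬝ᵥ (D.NE c S).mulVec (g i).1) = eS (twD c D.toDat) 0 S f +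
      ∑ j : S, Qf (f j) * D.g j + ∑ j : S, F4.tr (x ⬝ᵥ (f j).2 * D.a j) +
      ∑ j : S, F4.tr (y ⬝ᵥ (f j).1) * (F4.tr (D.a j) + D.g j) + F4.tr (c * (x ⬝ᵥ y)) := by
    rw [← h0, ← h1, ← h2, ← h3, ← h4, ← sum_add_distrib, ← sum_add_distrib, ← sum_add_distrib,
      ← sum_add_distrib]
    exact sum_congr rfl fun i _ => dot_NE D c S (g i).1 (g i).2
  have h6 : D.eS (LSkE k c c' x y) S f = eS2 D.toDat c c' S f +
      ∑ j : S, F4.tr (x ⬝ᵥ (f j).2 * D.a j) + ∑ j : S, F4.tr (y ⬝ᵥ (f j).1) * F4.tr (D.a j) +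
      (∑ j : S, Qf (f j) * D.g j + ∑ j : S, F4.tr (y ⬝ᵥ (f j).1) * D.g j) := by
    have e1 : ∑ j : S, delE y (f j) * D.g j = ∑ j : S, Qf (f j) * D.g j +
        ∑ j : S, F4.tr (y ⬝ᵥ (f j).1) * D.g j := by
      rw [← sum_add_distrib]
      exact sum_congr rfl fun j _ => by rw [delE, add_mul]
    have e2 : ∑ j : S, F4.tr (gamE c c' x y (f j) * D.a j) =
        ∑ j : S, F4.tr (gam2 c c' (f j) * D.a j) + ∑ j : S, F4.tr (x ⬝ᵥ (f j).2 * D.a j) +
        ∑ j : S, F4.tr (y ⬝ᵥ (f j).1) * F4.tr (D.a j) := by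
      rw [← sum_add_distrib, ← sum_add_distrib]
      exact sum_congr rfl fun j _ => by rw [tr_gamE, add_assoc]
    have e3 : D.eS (LSkE k c c' x y) S f = (∑ j : S, F4.tr (gamE c c' x y (f j) * D.a j) +
        ∑ i : S, ∑ j : S, Phi (f i) (f j) * D.s i j) + ∑ j : S, delE y (f j) * D.g j := rfl
    rw [e3, e1, e2, eS2]
    ring
  rw [h5, h6, eS2_eq]
  simp only [mul_add, sum_add_distrib]
  ring

theorem kcE_mul (D : DatE ι) (c : F4) (S : Finset ι) : (D.kcE c S : ℝ) * 4 ^ (S.card + 1) =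
    ∑ p : (S ⊕ Unit → F4) × (S ⊕ Unit → F4), sg (F4.tr (p.2 ⬝ᵥ (D.NE c S).mulVec p.1)) := by
  rw [Fintype.sum_prod_type]
  have h1 : ∀ v : S ⊕ Unit → F4, ∑ w : S ⊕ Unit → F4, sg (F4.tr (w ⬝ᵥ (D.NE c S).mulVec v)) =
      if (D.NE c S).mulVec v = 0 then (4 ^ (S.card + 1) : ℝ) else 0 := by
    intro v
    rw [sum_dotG, Fintype.card_sum, Fintype.card_coe, Fintype.card_unit]
  simp only [h1]
  rw [← sum_filter, sum_const, nsmul_eq_mul, DatE.kcE, Fintype.card_subtype]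

/-- The expansion of the `k`-th power of the kernel size. -/
theorem kcE_pow_mul (D : DatE ι) (c c' : F4) (S : Finset ι) :
    (D.kcE c S : ℝ) ^ k * sg (F4.tr (c' * D.A S)) * (4 ^ k * (4 ^ k) ^ S.card) =
      ∑ y : Fin k → F4, ∑ x : Fin k → F4, sg (F4.tr (c * (x ⬝ᵥ y))) *
        ∑ f : S → Lab k, sg (D.eS (LSkE k c c' x y) S f) := by
  have e : (4 : ℝ) ^ k * (4 ^ k) ^ S.card = (4 ^ (S.card + 1)) ^ k := by
    rw [← pow_mul, ← pow_mul, ← pow_add]
    congr 1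
    ring
  have h1 : ((D.kcE c S : ℝ) * 4 ^ (S.card + 1)) ^ k * sg (F4.tr (c' * D.A S)) =
      ∑ g : Fin k → (S ⊕ Unit → F4) × (S ⊕ Unit → F4),
        sg (∑ i, F4.tr ((g i).2 ⬝ᵥ (D.NE c S).mulVec (g i).1) + F4.tr (c' * D.A S)) := by
    rw [kcE_mul, Fintype.sum_pow, sum_mul]
    refine sum_congr rfl fun g _ => ?_
    rw [sg_add, sg_sum]
  have h2 : (D.kcE c S : ℝ) ^ k * sg (F4.tr (c' * D.A S)) * (4 ^ k * (4 ^ k) ^ S.card) =
      ((D.kcE c S : ℝ) * 4 ^ (S.card + 1)) ^ k * sg (F4.tr (c' * D.A S)) := by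
    rw [e, mul_pow]
    ring
  rw [h2, h1]
  have h3 : ∑ y : Fin k → F4, ∑ x : Fin k → F4, sg (F4.tr (c * (x ⬝ᵥ y))) *
        ∑ f : S → Lab k, sg (D.eS (LSkE k c c' x y) S f) =
      ∑ p : (Fin k → F4) × (Fin k → F4) × (S → Lab k),
        sg (F4.tr (c * (p.2.1 ⬝ᵥ p.1)) + D.eS (LSkE k c c' p.2.1 p.1) S p.2.2) := by
    rw [Fintype.sum_prod_type]
    refine sum_congr rfl fun y _ => ?_
    rw [Fintype.sum_prod_type]
    refine sum_congr rfl fun x _ => ?_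
    rw [mul_sum]
    exact sum_congr rfl fun f _ => by rw [sg_add]
  rw [h3]
  refine Fintype.sum_equiv (⟨fun g => (fun i => (g i).2 (Sum.inr ()), fun i => (g i).1 (Sum.inr ()),
      fun j => (fun i => (g i).1 (Sum.inl j), fun i => (g i).2 (Sum.inl j))),
    fun p i => (Sum.elim (fun j => (p.2.2 j).1 i) fun _ => p.2.1 i,
      Sum.elim (fun j => (p.2.2 j).2 i) fun _ => p.1 i), fun g => ?_, fun _ => rfl⟩ :
      (Fin k → (S ⊕ Unit → F4) × (S ⊕ Unit → F4)) ≃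
        (Fin k → F4) × (Fin k → F4) × (S → Lab k)) _ _ fun g => ?_
  · funext i
    refine Prod.ext (funext fun j => ?_) (funext fun j => ?_)
    · rcases j with j | j <;> rfl
    · rcases j with j | j <;> rfl
  · show sg (∑ i, F4.tr ((g i).2 ⬝ᵥ (D.NE c S).mulVec (g i).1) + F4.tr (c' * D.A S)) = _
    rw [exp_eqN D c c' S g]
    rfl

/-- The same with the weight on the right. -/
theorem kcE_pow_eq (D : DatE ι) (c c' : F4) (S : Finset ι) :
    (D.kcE c S : ℝ) ^ k * sg (F4.tr (c' * D.A S)) =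
      (∑ y : Fin k → F4, ∑ x : Fin k → F4, sg (F4.tr (c * (x ⬝ᵥ y))) *
        ((((4 ^ k : ℕ) : ℝ)⁻¹) ^ S.card * ∑ f : S → Lab k, sg (D.eS (LSkE k c c' x y) S f))) /
        4 ^ k := by
  have h := kcE_pow_mul (k := k) D c c' S
  have h4 : (4 : ℝ) ^ k ≠ 0 := by positivity
  have h5 : ((4 : ℝ) ^ k) ^ S.card ≠ 0 := by positivity
  have e : ∀ y x : Fin k → F4, sg (F4.tr (c * (x ⬝ᵥ y))) *
      ((((4 ^ k : ℕ) : ℝ)⁻¹) ^ S.card * ∑ f : S → Lab k, sg (D.eS (LSkE k c c' x y) S f)) =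
      (sg (F4.tr (c * (x ⬝ᵥ y))) * ∑ f : S → Lab k, sg (D.eS (LSkE k c c' x y) S f)) *
        (((4 : ℝ) ^ k) ^ S.card)⁻¹ := by
    intro y x
    push_cast
    rw [inv_pow]
    ring
  simp only [e]
  simp only [← sum_mul]
  rw [← h]
  field_simp

end Dc

end

end Pool.Agent.Lib.MP_1a91b9_ntE
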