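import Pool.Agent.Lib.MP_1a91b9_ntH.D.Expand
import Pool.Agent.Lib.MP_1a91b9_ntE.D.Defs

/-!
# MP_1a91b9_nt, even classes, part D: expansion
-/

set_option autoImplicit false
set_option linter.unusedSectionVars false

namespace Pool.Agent.Lib.MP_1a91b9_ntE

open Finset Pool.Agent.Lib.MP_1a91b9_ntH

noncomputable section

variable {ι : Type} [DecidableEq ι] {L : Type} [Fintype L] [DecidableEq L]

private theorem expand_fib {M : Type} [AddCommMonoid M] (S : Finset ι) (f : S → L)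
    (H : L → ι → M) : ∑ j : S, H (f j) j = ∑ l, ∑ q ∈ famOf S f l, H l q := by
  have h1 : ∀ l, ∑ q ∈ famOf S f l, H l q =
      ∑ j ∈ univ.filter (fun j : S => f j = l), H (f j) j := by
    intro l
    unfold famOf
    rw [sum_map]
    refine sum_congr rfl fun j hj => ?_
    rw [(mem_filter.1 hj).2]
    rfl
  rw [sum_congr rfl fun l _ => h1 l]
  exact (sum_fiberwise univ f fun j => H (f j) j).symm

theorem eS_eq (D : DatE ι) (Λ : LSysE L) (S : Finset ι) (f : S → L) :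
    D.eS Λ S f = D.ee Λ (famOf S f) := by
  have h1 : ∑ j : S, Λ.del (f j) * D.g j = D.xx Λ (famOf S f) := by
    rw [expand_fib S f fun l q => Λ.del l * D.g q]
    unfold DatE.xx DatE.G
    refine sum_congr rfl fun l _ => ?_
    rw [mul_sum]
  unfold DatE.eS DatE.ee
  rw [h1, Pool.Agent.Lib.MP_1a91b9_ntH.eS_eq]

theorem expand [PS ι] (D : DatE ι) (Λ : LSysE L) (X : ℕ) :
    ∑ S ∈ Sx ι X, ((Λ.m : ℝ)⁻¹) ^ S.card * ∑ f : S → L, sg (D.eS Λ S f) =
      ∑ d ∈ Box ι L X, D.FF Λ d := by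
  rw [sum_box]
  refine sum_congr rfl fun S _ => ?_
  have h1 : ∑ f : S → L, sg (D.eS Λ S f) = ∑ d ∈ Fam L S, sg (D.ee Λ d) := by
    rw [← sum_fun_eq_fam S fun d => sg (D.ee Λ d)]
    refine sum_congr rfl fun f _ => ?_
    rw [eS_eq]
  rw [h1, mul_sum]
  refine sum_congr rfl fun d hd => ?_
  unfold DatE.FF
  rw [(mem_Fam.1 hd).2]

end

end Pool.Agent.Lib.MP_1a91b9_ntE
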