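import Pool.Agent.Lib.MP_1a91b9_ntH2.D.Kd

/-!
# MP_1a91b9_nt (TwistDensity), even classes, part D: the main term

The matrix of an even class has one more row and one more column. `x`, `y` are the coordinates of
the `k` vectors in the additional directions.
-/

set_option autoImplicit false
set_option linter.unusedSectionVars false

namespace Pool.Agent.Lib.MP_1a91b9_ntE.Dc

open Finset Pool.Agent.Lib.MP_1a91b9_ntH Pool.Agent.Lib.MP_1a91b9_ntH.Da
  Pool.Agent.Lib.MP_1a91b9_ntH2.Db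

variable {k : ℕ}

/-- The linear term. -/
def gamE (c c' : F4) (x y : Fin k → F4) (l : Lab k) : F4 :=
  gam2 c c' l + x ⬝ᵥ l.2 + F4.of (F4.tr (y ⬝ᵥ l.1))

/-- The exponent of the additional character. -/
def delE (y : Fin k → F4) (l : Lab k) : ZMod 2 := Qf l + F4.tr (y ⬝ᵥ l.1)

/-- The exponent `θ_U(A)`. -/
def thE (o : Lab k → ℕ) (c c' : F4) (x y : Fin k → F4) (U : Finset (Lab k)) (A : Lab k → F4) :
    ZMod 2 :=
  ∑ l ∈ U, F4.tr (gamE c c' x y l * A l) +
    ∑ l ∈ U, ∑ m ∈ U, if o l < o m then Phi m l * F4.tr (A l * A m) else 0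

open Classical in
/-- The contribution of a maximal unlinked set. -/
noncomputable def cUE (o : Lab k → ℕ) (c c' : F4) (x y : Fin k → F4) (U : Finset (Lab k)) : ℝ :=
  if ∀ l ∈ U, delE y l = 0 then
    (∑ A : Lab k → F4, sg (thE o c c' x y U A)) / Fintype.card (Lab k → F4) else 0

theorem tr_gamE (c c' : F4) (x y : Fin k → F4) (l : Lab k) (a : F4) :
    F4.tr (gamE c c' x y l * a) = F4.tr (gam2 c c' l * a) +
      (F4.tr (x ⬝ᵥ l.2 * a) + F4.tr (y ⬝ᵥ l.1) * F4.tr a) := by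
  have hd : ∀ (a : F4) (t : ZMod 2), F4.tr (F4.of t * a) = t * F4.tr a := by decide
  rw [gamE, add_mul, add_mul, F4.tr_add, F4.tr_add, hd, add_assoc]

theorem delE_eq (y : Fin k → F4) (l : Lab k) : delE y l = Qf (l + ((0, y) : Lab k)) := by
  rw [delE, Qf, Qf, Prod.snd_add, Prod.fst_add, add_zero, add_dotProduct, F4.tr_add]

/-- The additional part of the exponent on the coset `(0, y) + W`. -/
def Ye (x y : Fin k → F4) (W : Finset (Lab k)) (A : Lab k → F4) : ZMod 2 :=
  ∑ l ∈ W, (F4.tr (x ⬝ᵥ (l.2 + y) * A l) + F4.tr (y ⬝ᵥ l.1) * F4.tr (A l))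

theorem thE_sh (o : Lab k → ℕ) (c c' : F4) (x y : Fin k → F4) (W : Finset (Lab k))
    (A : Lab k → F4) : thE o c c' x y (sh ((0, y) : Lab k) W) A =
      EE2 (fun l => o (l + ((0, y) : Lab k))) c c' W ((0, y) : Lab k)
        (fun l => A (l + ((0, y) : Lab k))) + Ye x y W fun l => A (l + ((0, y) : Lab k)) := by
  have hinj : Set.InjOn (fun z : Lab k => z + ((0, y) : Lab k)) (W : Set (Lab k)) :=
    fun x _ y _ hxy => add_left_injective _ hxy
  rw [← theta2_sh, thE, theta2]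
  simp only [tr_gamE, sum_add_distrib]
  have h : ∑ l ∈ sh ((0, y) : Lab k) W, F4.tr (x ⬝ᵥ l.2 * A l) +
      ∑ l ∈ sh ((0, y) : Lab k) W, F4.tr (y ⬝ᵥ l.1) * F4.tr (A l) =
      Ye x y W fun l => A (l + ((0, y) : Lab k)) := by
    rw [Ye, sum_add_distrib, sh, sum_image hinj, sum_image hinj]
    congr 1
    refine sum_congr rfl fun l _ => ?_
    rw [Prod.fst_add, add_zero]
  rw [← h]
  ring

theorem Ye_add (x y : Fin k → F4) (W : Finset (Lab k)) (A B : Lab k → F4) :
    Ye x y W (A + B) = Ye x y W A + Ye x y W B := by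
  rw [Ye, Ye, Ye, ← sum_add_distrib]
  refine sum_congr rfl fun l _ => ?_
  rw [Pi.add_apply, mul_add, F4.tr_add, F4.tr_add]
  ring

theorem Ye_single (x y : Fin k → F4) {W : Finset (Lab k)} {q : Lab k} (hq : q ∈ W) (t : F4) :
    Ye x y W (Pi.single q t) = F4.tr (x ⬝ᵥ (q.2 + y) * t) + F4.tr (y ⬝ᵥ q.1) * F4.tr t := by
  rw [Ye, sum_eq_single q]
  · rw [Pi.single_eq_same]
  · intro m _ hm
    rw [Pi.single_eq_of_ne hm, mul_zero, F4.tr_zero, mul_zero, add_zero]
  · intro h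
    exact absurd hq h

/-- If `W` is not hermitian, the average is zero. -/
theorem sum_not_her (o : Lab k → ℕ) (ho : Function.Injective o) (c c' : F4) (x y : Fin k → F4)
    {W : Finset (Lab k)} (hW : Mx W) (h : ¬ Her W) (l0 : Lab k) :
    ∑ A, sg (EE2 o c c' W l0 A + Ye x y W A) = 0 := by
  unfold Her at h
  push Not at h
  obtain ⟨a, ha, b, hb, hab⟩ := h
  have hab' : a + b ∈ W := hW.add_mem ha hb
  have hQa := hW.unl.Qf hW.zero ha
  have hQb := hW.unl.Qf hW.zero hb
  have hB := hW.unl.Bf hW.zero ha hb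
  have hQa0 := hQa
  have hQb0 := hQb
  have hB0 := hB
  rw [Qf] at hQa hQb
  rw [Bf] at hB
  obtain ⟨t, ht⟩ : ∃ t : F4, F4.tr t = 1 := ⟨F4.w, rfl⟩
  set K : Lab k → F4 := Pi.single 0 t + (Pi.single a t + (Pi.single b t + Pi.single (a + b) t))
    with hK
  refine sum_sg_eq_zero (fun A => EE2 o c c' W l0 A + Ye x y W A) K fun A => ?_
  have e1 : ∀ A, EE2 o c c' W l0 A = Ln c' W l0 A + PP o W l0 A + Xt c W l0 A := fun A => rfl
  have hYK : Ye x y W K = 0 := by
    rw [hK, Ye_add, Ye_add, Ye_add, Ye_single x y hW.zero, Ye_single x y ha, Ye_single x y hb,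
      Ye_single x y hab', ht]
    simp only [Prod.fst_add, Prod.snd_add, dotProduct_add, add_mul, F4.tr_add, Prod.fst_zero,
      Prod.snd_zero, dotProduct_zero, F4.tr_zero, zero_mul, mul_one]
    generalize F4.tr (x ⬝ᵥ a.2 * t) = x1
    generalize F4.tr (x ⬝ᵥ b.2 * t) = x2
    generalize F4.tr (x ⬝ᵥ y * t) = x3
    generalize F4.tr (y ⬝ᵥ a.1) = x4
    generalize F4.tr (y ⬝ᵥ b.1) = x5
    revert x1 x2 x3 x4 x5
    decide
  rw [e1, e1, Ln_add, PP_add o ho hW, Xt_add, Ye_add, hYK, add_zero]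
  have hpol : pol W l0 A K = 0 := by
    rw [hK, pol_add_right, pol_add_right, pol_add_right, pol_single l0 _ hW.zero,
      pol_single l0 _ ha, pol_single l0 _ hb, pol_single l0 _ hab', ← sum_add_distrib,
      ← sum_add_distrib, ← sum_add_distrib]
    refine sum_eq_zero fun l _ => ?_
    have := Phi_four (l := l) (l0 := l0) (a := a) (b := b)
    linear_combination F4.tr (A l * t) * this
  have hX : Xt c W l0 K = 0 := by
    rw [hK, Xt_add, Xt_add, Xt_add, Xt_single c l0 hW.zero, Xt_single c l0 ha, Xt_single c l0 hb,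
      Xt_single c l0 hab']
    rw [zero_add, Qf_add a l0, Qf_add b l0, Qf_add (a + b) l0, Qf_add a b, Bf_add', hQa0, hQb0, hB0]
    generalize Qf l0 = x1
    generalize Bf a l0 = x2
    generalize Bf b l0 = x3
    generalize F4.tr (c * t) = x4
    revert x1 x2 x3 x4
    decide
  have hPK : PP o W l0 K = F4.tr (a.2 ⬝ᵥ b.1) := by
    rw [hK, PP_add o ho hW, PP_add o ho hW, PP_add o ho hW, PP_single, PP_single, PP_single,
      PP_single, pol_add_right, pol_add_right, pol_add_right, pol_single_single l0 hW.zero ha,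
      pol_single_single l0 hW.zero hb, pol_single_single l0 hW.zero hab',
      pol_single_single l0 ha hb, pol_single_single l0 ha hab', pol_single_single l0 hb hab',
      F4.tr_sq, ht]
    simp only [Phi_sh, Prod.fst_add, dotProduct_add, F4.tr_add,
      Prod.fst_zero, Prod.snd_zero, dotProduct_zero, zero_dotProduct, F4.tr_zero, hQa, hQb]
    have hB' : F4.tr (b.2 ⬝ᵥ a.1) = F4.tr (a.2 ⬝ᵥ b.1) :=
      add_left_cancel (hB.trans (zadd_self _).symm)
    rw [hB']
    generalize F4.tr (a.2 ⬝ᵥ b.1) = x1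
    generalize F4.tr (l0.2 ⬝ᵥ a.1) = x2
    generalize F4.tr (l0.2 ⬝ᵥ b.1) = x3
    revert x1 x2 x3
    decide
  have hLK : Ln c' W l0 K = F4.tr (F4.cj (a.2 ⬝ᵥ b.1 + b.2 ⬝ᵥ a.1) * t) := by
    rw [hK, Ln_add, Ln_add, Ln_add, Ln_single c' l0 hW.zero, Ln_single c' l0 ha,
      Ln_single c' l0 hb, Ln_single c' l0 hab', ← gam_four c' (l0 := l0), add_mul, add_mul, add_mul,
      F4.tr_add, F4.tr_add, F4.tr_add]
    ring
  have hfin : ∀ x y t : F4, F4.tr x + F4.tr y = 0 → F4.cj x ≠ y → F4.tr t = 1 →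
      F4.tr (F4.cj (x + y) * t) + F4.tr x = 1 := by decide
  have hKK := hfin _ _ t hB hab ht
  rw [← hLK, ← hPK] at hKK
  rw [hpol, hX]
  linear_combination hKK

/-! ### The hermitian case -/

theorem Ye_eq (x y : Fin k → F4) (W : Finset (Lab k)) (A : Lab k → F4) :
    Ye x y W A = F4.tr (x ⬝ᵥ (aT W A • y + vS W A)) + F4.tr (y ⬝ᵥ (vR W A + vR' W A)) := by
  rw [dotProduct_add, dotProduct_add, dotProduct_smul, F4.tr_add, F4.tr_add, vR, vR', vS, aT,
    dotProduct_sum, dotProduct_sum, dotProduct_sum, F4.tr_sum, F4.tr_sum, F4.tr_sum, smul_eq_mul,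
    sum_mul, F4.tr_sum, ← sum_add_distrib, ← sum_add_distrib, ← sum_add_distrib, Ye]
  refine sum_congr rfl fun l _ => ?_
  rw [F4.tr_mul_tr, dotProduct_add, add_mul, F4.tr_add, dotProduct_smul, dotProduct_smul,
    dotProduct_smul, smul_eq_mul, smul_eq_mul, smul_eq_mul, mul_comm (A l) (x ⬝ᵥ y),
    mul_comm (A l) (x ⬝ᵥ l.2), mul_comm (A l) (y ⬝ᵥ l.1), mul_comm (F4.cj (A l)) (y ⬝ᵥ l.1)]
  ring

theorem exp_eqE (o : Lab k → ℕ) (ho : Function.Injective o) (c c' : F4) (x y : Fin k → F4)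
    {W : Finset (Lab k)} (hW : Mx W) (h : Her W) (A : Lab k → F4) :
    F4.tr (c * (x ⬝ᵥ y)) + (EE2 o c c' W ((0, y) : Lab k) A + Ye x y W A) =
      F4.tr (c' * aT W A) + F4.tr (vS W A ⬝ᵥ vR W A) +
      F4.tr (y ⬝ᵥ ((aT W A + c) • vR W A + (F4.cj (aT W A) + F4.cj c + 1) • vR' W A)) +
      F4.tr (x ⬝ᵥ ((aT W A + c) • y + vS W A)) := by
  rw [EE2_eq o ho c c' hW h, Ye_eq]
  simp only [dotProduct_add, dotProduct_smul, smul_eq_mul, F4.tr_add, add_smul,
    zero_dotProduct, F4.tr_zero, one_smul, mul_zero]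
  have h2 : (2 : ZMod 2) = 0 := rfl
  linear_combination (F4.tr (y ⬝ᵥ vR W A)) * h2

/-- The hermitian case, summed over `x` and `y`. -/
theorem sum_xy (o : Lab k → ℕ) (ho : Function.Injective o) (c c' : F4)
    {W : Finset (Lab k)} (hW : Mx W) (h : Her W) (A : Lab k → F4) :
    ∑ y : Fin k → F4, ∑ x : Fin k → F4,
      sg (F4.tr (c * (x ⬝ᵥ y)) + (EE2 o c c' W ((0, y) : Lab k) A + Ye x y W A)) =
      4 ^ k * sg (F4.tr (c' * aT W A)) * (if aT W A + c ≠ 0 then 1 else
        if ((vR' W A, vS W A) : Lab k) = 0 then 4 ^ k else 0) := by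
  have h1 : ∀ y : Fin k → F4, ∑ x : Fin k → F4,
      sg (F4.tr (c * (x ⬝ᵥ y)) + (EE2 o c c' W ((0, y) : Lab k) A + Ye x y W A)) =
      sg (F4.tr (c' * aT W A) + F4.tr (vS W A ⬝ᵥ vR W A) +
        F4.tr (y ⬝ᵥ ((aT W A + c) • vR W A + (F4.cj (aT W A) + F4.cj c + 1) • vR' W A))) *
      (if (aT W A + c) • y + vS W A = 0 then (4 ^ k : ℝ) else 0) := by
    intro y
    rw [← sum_dot, mul_sum]
    refine sum_congr rfl fun x _ => ?_
    rw [exp_eqE o ho c c' x y hW h, sg_add]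
  simp only [h1]
  by_cases hb : aT W A + c = 0
  · have hac : F4.cj (aT W A) + F4.cj c = 0 := by rw [← F4.cj_add, hb, F4.cj_zero]
    rw [if_neg (not_not.2 hb)]
    simp only [hb, hac, zero_smul, zero_add, one_smul, Prod.mk_eq_zero]
    by_cases hS : vS W A = 0
    · simp only [hS, if_true, and_true, zero_dotProduct, F4.tr_zero, add_zero, sg_add]
      rw [← sum_mul, ← mul_sum, sum_dot]
      split_ifs <;> ring
    · have hn : ¬ (vR' W A = 0 ∧ vS W A = 0) := fun hh => hS hh.2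
      rw [if_neg hn, mul_zero]
      refine sum_eq_zero fun y _ => ?_
      rw [if_neg hS, mul_zero]
  · rw [if_pos hb, mul_one]
    set be : F4 := aT W A + c with hbe
    have hcb : F4.cj (aT W A) + F4.cj c = F4.cj be := by rw [hbe, F4.cj_add]
    set y1 : Fin k → F4 := be⁻¹ • vS W A with hy1
    rw [sum_eq_single y1]
    · have hz : be • y1 + vS W A = 0 := by
        rw [hy1, smul_smul, mul_inv_cancel₀ hb, one_smul, vadd_self]
      rw [if_pos hz]
      have h2 : F4.tr (vS W A ⬝ᵥ vR W A) + F4.tr (y1 ⬝ᵥ (be • vR W A +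
          (F4.cj (aT W A) + F4.cj c + 1) • vR' W A)) = 0 := by
        have hq : F4.cj (vS W A ⬝ᵥ vR' W A) = vS W A ⬝ᵥ vR' W A := by
          simp only [vS, vR', sum_dotProduct, dotProduct_sum, smul_dotProduct, dotProduct_smul,
            smul_eq_mul, F4.cj_sum, F4.cj_mul, F4.cj_cj, mul_sum]
          rw [sum_comm]
          refine sum_congr rfl fun l hl => sum_congr rfl fun m hm => ?_
          rw [h l hl m hm]
          ring
        rw [hcb, hy1, dotProduct_add, F4.tr_add, smul_dotProduct, smul_dotProduct, dotProduct_smul,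
          dotProduct_smul, smul_eq_mul, smul_eq_mul, smul_eq_mul, smul_eq_mul]
        have hd1 : ∀ b z : F4, b ≠ 0 → F4.tr z + F4.tr (b⁻¹ * (b * z)) = 0 := by decide
        have hd2 : ∀ b q : F4, b ≠ 0 → F4.cj q = q →
            F4.tr (b⁻¹ * ((F4.cj b + 1) * q)) = 0 := by decide
        rw [← add_assoc, hd1 _ _ hb, hd2 _ _ hb hq, add_zero]
      rw [add_assoc, h2, add_zero]
      ring
    · intro y _ hne
      rw [if_neg, mul_zero]
      intro hz
      apply hne
      have h3 : be • y = vS W A := v_eq_iff.1 hz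
      rw [hy1, ← h3, smul_smul, inv_mul_cancel₀ hb, one_smul]
    · intro h
      exact absurd (mem_univ _) h

theorem sum_her (o : Lab k → ℕ) (ho : Function.Injective o) (c c' : F4)
    {W : Finset (Lab k)} (hW : Mx W) (h : Her W) :
    ∑ y : Fin k → F4, ∑ x : Fin k → F4, ∑ A : Lab k → F4,
      sg (F4.tr (c * (x ⬝ᵥ y)) + (EE2 (fun l => o (l + ((0, y) : Lab k))) c c' W
        ((0, y) : Lab k) A + Ye x y W A)) =
      if c' = 0 then (4 ^ k : ℝ) * Fintype.card (Lab k → F4) else 0 := by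
  have ho' : ∀ l0, Function.Injective fun l : Lab k => o (l + l0) := fun l0 =>
    ho.comp (add_left_injective l0)
  have hr : ∀ l0 A, EE2 (fun l => o (l + l0)) c c' W l0 A = EE2 o c c' W l0 A := fun l0 A => by
    rw [EE2_eq _ (ho' l0) c c' hW h, EE2_eq o ho c c' hW h]
  simp only [hr]
  have h0 : ∑ y : Fin k → F4, ∑ x : Fin k → F4, ∑ A : Lab k → F4,
      sg (F4.tr (c * (x ⬝ᵥ y)) + (EE2 o c c' W ((0, y) : Lab k) A + Ye x y W A)) =
      ∑ A : Lab k → F4, ∑ y : Fin k → F4, ∑ x : Fin k → F4,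
        sg (F4.tr (c * (x ⬝ᵥ y)) + (EE2 o c c' W ((0, y) : Lab k) A + Ye x y W A)) := by
    rw [sum_comm (s := (univ : Finset (Lab k → F4)))]
    refine sum_congr rfl fun y _ => ?_
    rw [sum_comm]
  rw [h0]
  simp only [sum_xy o ho c c' hW h]
  have h1 := sum_gG hW h (fun z : F4 × Lab k × Lab k => 4 ^ k * sg (F4.tr (c' * z.1)) *
    (if z.1 + c ≠ 0 then 1 else if z.2.2 = 0 then 4 ^ k else 0))
  refine Eq.trans h1 ?_
  have h2 : (Fintype.card (Lab k → F4) : ℝ) = kapG W * (4 * (4 ^ k * 4 ^ k)) := by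
    have := sum_gG hW h fun _ => 1
    simp only [sum_const, card_univ, nsmul_eq_mul, mul_one, F4.card_F4, hW.card] at this
    rw [this]
    push_cast
    ring
  have h3 : ∀ a : F4, ∑ _l ∈ W, ∑ m ∈ W, (4 : ℝ) ^ k * sg (F4.tr (c' * a)) *
      (if a + c ≠ 0 then 1 else if m = 0 then 4 ^ k else 0) =
      4 ^ k * 4 ^ k * 4 ^ k * sg (F4.tr (c' * a)) := by
    intro a
    have hc : (W.card : ℝ) = 4 ^ k := by rw [hW.card]; push_cast; rfl
    have h4 : ∑ m ∈ W, (if a + c ≠ 0 then (1 : ℝ) else if m = 0 then 4 ^ k else 0) = 4 ^ k := by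
      by_cases hb : a + c = 0
      · simp only [hb, ne_eq, not_true_eq_false, if_false]
        rw [sum_ite_eq', if_pos hW.zero]
      · simp only [ne_eq, hb, not_false_eq_true, if_true, sum_const, nsmul_eq_mul, mul_one]
        exact hc
    simp only [← mul_sum]
    rw [h4, sum_const, nsmul_eq_mul, hc]
    ring
  simp only [h3]
  rw [← mul_sum, sum_sg_tr]
  split_ifs with hc
  · rw [h2]; ring
  · ring

/-- The maximal unlinked sets which contain `l0` are the translates of the maximal singular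
subspaces. -/
theorem sum_Us_mem (l0 : Lab k) (f : Finset (Lab k) → ℝ) : by
    classical exact ∑ U ∈ (Us k).filter (fun U => l0 ∈ U), f U =
      ∑ W ∈ univ.filter (fun W => Mx W), f (sh l0 W) := by
  classical
  refine sum_nbij' (fun U => sh l0 U) (fun U => sh l0 U) ?_ ?_ ?_ ?_ ?_
  · intro U hU
    rw [mem_filter] at hU
    have hU1 := (mem_filter.1 hU.1).2
    exact mem_filter.2 ⟨mem_univ _, Unl_sh hU1.1, by rw [card_sh, hU1.2],
      by rw [mem_sh, zero_add]; exact hU.2⟩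
  · intro W hW
    have hW1 := (mem_filter.1 hW).2
    refine mem_filter.2 ⟨mem_filter.2 ⟨mem_univ _, Unl_sh hW1.unl, by rw [card_sh, hW1.card]⟩, ?_⟩
    rw [mem_sh, ladd_self]
    exact hW1.zero
  · intro U _
    exact sh_sh l0 U
  · intro U _
    exact sh_sh l0 U
  · intro U _
    rw [sh_sh]

theorem del_iff {U : Finset (Lab k)} (hU : U ∈ Us k) (y : Fin k → F4) :
    (∀ l ∈ U, delE y l = 0) ↔ ((0, y) : Lab k) ∈ U := by
  classical
  obtain ⟨-, h1, h2⟩ := mem_filter.1 hU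
  constructor
  · intro h
    by_contra hn
    obtain ⟨l, hl, -, -, h3, -⟩ := K2 h1 h2 hn
    rw [Lk_eq, ← delE_eq, h l hl] at h3
    exact zero_ne_one h3
  · intro h l hl
    rw [delE_eq, ← Lk_eq]
    exact h1 l hl _ h

/-- (K3) for the even class `c`. -/
theorem K3E (o : Lab k → ℕ) (ho : Function.Injective o) (c c' : F4) :
    ∑ y : Fin k → F4, ∑ x : Fin k → F4, sg (F4.tr (c * (x ⬝ᵥ y))) *
      ∑ U ∈ Us k, cUE o c c' x y U = if c' = 0 then (4 : ℝ) ^ k * Nk k else 0 := by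
  classical
  have hpos : (0 : ℝ) < Fintype.card (Lab k → F4) := by exact_mod_cast Fintype.card_pos
  set N : ℝ := (Fintype.card (Lab k → F4) : ℝ) with hN
  have h1 : ∀ x y : Fin k → F4, sg (F4.tr (c * (x ⬝ᵥ y))) * ∑ U ∈ Us k, cUE o c c' x y U =
      ∑ W ∈ univ.filter (fun W : Finset (Lab k) => Mx W), (∑ A : Lab k → F4,
        sg (F4.tr (c * (x ⬝ᵥ y)) + (EE2 (fun l => o (l + ((0, y) : Lab k))) c c' W
          ((0, y) : Lab k) A + Ye x y W A))) / N := by
    intro x y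
    have h2 : ∑ U ∈ Us k, cUE o c c' x y U = ∑ U ∈ (Us k).filter (fun U => ((0, y) : Lab k) ∈ U),
        (∑ A : Lab k → F4, sg (thE o c c' x y U A)) / N := by
      rw [sum_filter]
      refine sum_congr rfl fun U hU => ?_
      rw [cUE, if_congr (del_iff hU y) rfl rfl]
    rw [h2, sum_Us_mem ((0, y) : Lab k) fun U => (∑ A : Lab k → F4,
      sg (thE o c c' x y U A)) / N, mul_sum]
    refine sum_congr rfl fun W _ => ?_
    rw [← mul_div_assoc, mul_sum]
    congr 1
    refine Fintype.sum_equiv (Equiv.arrowCongr (Equiv.addRight ((0, y) : Lab k))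
      (Equiv.refl F4)) _ _ ?_
    intro A
    rw [thE_sh, sg_add (F4.tr (c * (x ⬝ᵥ y)))]
    congr 2
  simp only [h1]
  have h3 : ∑ y : Fin k → F4, ∑ x : Fin k → F4, ∑ W ∈ univ.filter (fun W : Finset (Lab k) => Mx W),
      (∑ A : Lab k → F4, sg (F4.tr (c * (x ⬝ᵥ y)) + (EE2 (fun l => o (l + ((0, y) : Lab k))) c c' W
          ((0, y) : Lab k) A + Ye x y W A))) / N =
      ∑ W ∈ univ.filter (fun W : Finset (Lab k) => Mx W), (∑ y : Fin k → F4, ∑ x : Fin k → F4,
        ∑ A : Lab k → F4, sg (F4.tr (c * (x ⬝ᵥ y)) + (EE2 (fun l => o (l + ((0, y) : Lab k))) c c' W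
          ((0, y) : Lab k) A + Ye x y W A))) / N := by
    have h4 : ∀ y : Fin k → F4, ∑ x : Fin k → F4,
        ∑ W ∈ univ.filter (fun W : Finset (Lab k) => Mx W), (∑ A : Lab k → F4,
          sg (F4.tr (c * (x ⬝ᵥ y)) + (EE2 (fun l => o (l + ((0, y) : Lab k))) c c' W
          ((0, y) : Lab k) A + Ye x y W A))) / N =
        ∑ W ∈ univ.filter (fun W : Finset (Lab k) => Mx W), (∑ x : Fin k → F4,
          ∑ A : Lab k → F4, sg (F4.tr (c * (x ⬝ᵥ y)) + (EE2 (fun l => o (l + ((0, y) : Lab k)))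
          c c' W ((0, y) : Lab k) A + Ye x y W A))) / N := by
      intro y
      rw [sum_comm]
      refine sum_congr rfl fun W _ => ?_
      rw [sum_div]
    simp only [h4]
    rw [sum_comm]
    refine sum_congr rfl fun W _ => ?_
    rw [sum_div]
  rw [h3]
  have h5 : ∀ W ∈ univ.filter (fun W : Finset (Lab k) => Mx W),
      (∑ y : Fin k → F4, ∑ x : Fin k → F4,
        ∑ A : Lab k → F4, sg (F4.tr (c * (x ⬝ᵥ y)) + (EE2 (fun l => o (l + ((0, y) : Lab k))) c c' W
          ((0, y) : Lab k) A + Ye x y W A))) / N =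
      if Her W then (if c' = 0 then (4 ^ k : ℝ) else 0) else 0 := by
    intro W hW
    have hW1 := (mem_filter.1 hW).2
    by_cases hH : Her W
    · rw [if_pos hH, sum_her o ho c c' hW1 hH]
      split_ifs
      · rw [mul_div_assoc, ← hN, div_self hpos.ne', mul_one]
      · rw [zero_div]
    · rw [if_neg hH]
      have h6 : ∀ y x : Fin k → F4, ∑ A : Lab k → F4, sg (F4.tr (c * (x ⬝ᵥ y)) +
          (EE2 (fun l => o (l + ((0, y) : Lab k))) c c' W ((0, y) : Lab k) A + Ye x y W A)) = 0 := by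
        intro y x
        simp only [sg_add (F4.tr (c * (x ⬝ᵥ y)))]
        have h8 := sum_not_her (fun l => o (l + ((0, y) : Lab k)))
          (ho.comp (add_left_injective _)) c c' x y hW1 hH ((0, y) : Lab k)
        rw [← mul_sum, h8, mul_zero]
      simp only [h6, sum_const_zero, zero_div]
  rw [sum_congr rfl h5, ← sum_filter, filter_filter]
  have h7 : univ.filter (fun W : Finset (Lab k) => Mx W ∧ Her W) = Lgs k := by
    rw [Lgs]
  rw [h7, sum_const, nsmul_eq_mul, card_Lgs]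
  split_ifs
  · ring
  · ring

end Pool.Agent.Lib.MP_1a91b9_ntE.Dc
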