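import Pool.Agent.Lib.MP_1a91b9_ntE.D.ExE
import Pool.Agent.Lib.MP_1a91b9_ntE.D.Engine

/-!
# MP_1a91b9_nt (TwistDensity), even classes, part D: moments and density
-/

set_option autoImplicit false
set_option linter.unusedSectionVars false

namespace Pool.Agent.Lib.MP_1a91b9_ntE.Dc

open Finset Pool.Agent.Lib.MP_1a91b9_ntH Pool.Agent.Lib.MP_1a91b9_ntH.Da
  Pool.Agent.Lib.MP_1a91b9_ntH2.Db

noncomputable section

variable {k : ℕ} {ι : Type} [DecidableEq ι]

/-! ### The label system and the kernel -/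

theorem LSkE_inj (k : ℕ) (c c' : F4) (x y : Fin k → F4) : Function.Injective (LSkE k c c' x y).o :=
  fun _ _ h => (Fintype.equivFin (Lab k)).injective (Fin.val_injective h)

theorem LSkE_OK {k : ℕ} (hk : 1 ≤ k) (c c' : F4) (x y : Fin k → F4) : (LSkE k c c' x y).OK where
  diag := Phi_self
  inj := LSkE_inj k c c' x y
  two := by
    show 2 ≤ 4 ^ k
    calc 2 ≤ 4 ^ 1 := by norm_num
      _ ≤ 4 ^ k := Nat.pow_le_pow_right (by norm_num) hk
  k1 := fun _ hU => K1 hU
  k2 := fun U hU hc x hx => by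
    obtain ⟨l, hl, l', hl', h1, h2⟩ := K2 hU hc hx
    refine ⟨l, hl, l', hl', ?_⟩
    show Lk l x ≠ Lk l' x
    rw [h1, h2]
    exact one_ne_zero

theorem kcE_pow (D : DatE ι) (c : F4) (S : Finset ι) : ∃ r : ℕ, D.kcE c S = 4 ^ r := by
  have h1 : D.kcE c S = Nat.card (LinearMap.ker (D.NE c S).mulVecLin) := by
    rw [DatE.kcE, ← Nat.card_eq_fintype_card]
    rfl
  have h2 := Module.natCard_eq_pow_finrank (K := F4) (V := LinearMap.ker (D.NE c S).mulVecLin)
  rw [← h1, Nat.card_eq_fintype_card, F4.card_F4] at h2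
  exact ⟨_, h2⟩

theorem kcE_eq_one (D : DatE ι) (c : F4) (S : Finset ι) :
    D.kcE c S = 1 ↔ (D.NE c S).det ≠ 0 := by
  rw [DatE.kcE, Fintype.card_eq_one_iff, ne_eq, ← Matrix.exists_mulVec_eq_zero_iff]
  constructor
  · rintro ⟨x, hx⟩ ⟨v, hv, hv0⟩
    have h1 := hx ⟨v, hv0⟩
    have h2 := hx ⟨0, Matrix.mulVec_zero _⟩
    rw [← h2] at h1
    exact hv (congrArg Subtype.val h1)
  · intro h
    refine ⟨⟨0, Matrix.mulVec_zero _⟩, fun y => ?_⟩
    by_contra hne
    exact h ⟨y.1, fun h0 => hne (Subtype.ext h0), y.2⟩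

/-! ### Moments in the classes -/

variable [PS ι]

/-- The mean value of `g (kc S)` over every class is `v`. -/
def MFE (D : DatE ι) (c : F4) (g : ℝ → ℝ) (v : ℝ) : Prop :=
  ∀ ε : ℝ, 0 < ε → ∃ X₀ : ℕ, ∀ X : ℕ, X₀ ≤ X → ∀ α : F4,
    |∑ S ∈ SA D.toDat X α, g (D.kcE c S) - v * (SA D.toDat X α).card| ≤ ε * X

theorem MFE.add {D : DatE ι} {c : F4} {g h : ℝ → ℝ} {v w : ℝ} (hg : MFE D c g v)
    (hh : MFE D c h w) : MFE D c (fun x => g x + h x) (v + w) := by
  intro ε hε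
  obtain ⟨X1, h1⟩ := hg (ε / 2) (by positivity)
  obtain ⟨X2, h2⟩ := hh (ε / 2) (by positivity)
  refine ⟨max X1 X2, fun X hX α => ?_⟩
  have h3 := h1 X (le_trans (le_max_left _ _) hX) α
  have h4 := h2 X (le_trans (le_max_right _ _) hX) α
  rw [sum_add_distrib]
  calc |∑ S ∈ SA D.toDat X α, g (D.kcE c S) + ∑ S ∈ SA D.toDat X α, h (D.kcE c S) -
        (v + w) * (SA D.toDat X α).card|
      = |(∑ S ∈ SA D.toDat X α, g (D.kcE c S) - v * (SA D.toDat X α).card) +
        (∑ S ∈ SA D.toDat X α, h (D.kcE c S) - w * (SA D.toDat X α).card)| := by congr 1; ring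
    _ ≤ _ := abs_add_le _ _
    _ ≤ ε / 2 * X + ε / 2 * X := add_le_add h3 h4
    _ = ε * X := by ring

theorem MFE.smul {D : DatE ι} {c : F4} {g : ℝ → ℝ} {v : ℝ} (hg : MFE D c g v) (a : ℝ) :
    MFE D c (fun x => a * g x) (a * v) := by
  intro ε hε
  obtain ⟨X1, h1⟩ := hg (ε / (|a| + 1)) (by positivity)
  refine ⟨X1, fun X hX α => ?_⟩
  have h3 := h1 X hX α
  rw [← mul_sum, mul_assoc, ← mul_sub, abs_mul]
  have ha : 0 < |a| + 1 := by positivity
  calc |a| * |∑ S ∈ SA D.toDat X α, g (D.kcE c S) - v * (SA D.toDat X α).card|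
      ≤ (|a| + 1) * (ε / (|a| + 1) * X) := by
        refine mul_le_mul (by linarith) h3 (abs_nonneg _) ha.le
    _ = ε * X := by field_simp

theorem MFE.congr {D : DatE ι} {c : F4} {g h : ℝ → ℝ} {v w : ℝ} (hg : MFE D c g v)
    (h1 : ∀ x, h x = g x) (h2 : w = v) : MFE D c h w := by
  rw [h2, show h = g from funext h1]
  exact hg

theorem MFE_Fj {D : DatE ι} {c : F4} (hm : ∀ k, MFE D c (fun x => x ^ k) (Nk k)) (j : ℕ) :
    ∀ m : ℕ, MFE D c (fun x => x ^ m * Fj j x) (2 ^ (j ^ 2) * 4 ^ (j * m) * Nk m) := by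
  induction j with
  | zero =>
    intro m
    refine (hm m).congr (fun x => ?_) ?_
    · simp [Fj]
    · simp
  | succ j ih =>
    intro m
    refine ((ih (m + 1)).add ((ih m).smul (-(4 ^ j)))).congr (fun x => ?_) ?_
    · rw [Fj, prod_range_succ, ← Fj]
      ring
    · rw [Nk_succ']
      have e1 : (4 : ℝ) ^ (j * (m + 1)) = 4 ^ (j * m) * 4 ^ j := by rw [← pow_add]; ring_nf
      have e2 : (4 : ℝ) ^ ((j + 1) * m) = 4 ^ (j * m) * 4 ^ m := by rw [← pow_add]; ring_nf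
      have e3 : (2 : ℝ) ^ ((j + 1) ^ 2) = 2 ^ (j ^ 2) * 4 ^ j * 2 := by
        have : (4 : ℝ) ^ j = 2 ^ (2 * j) := by rw [pow_mul]; norm_num
        rw [this, ← pow_add, ← pow_succ]
        ring_nf
      rw [e1, e2, e3]
      ring

theorem MFE_pK {D : DatE ι} {c : F4} (hm : ∀ k, MFE D c (fun x => x ^ k) (Nk k)) (K : ℕ) :
    MFE D c (pK K) (sK K) := by
  induction K with
  | zero =>
    refine (hm 0).congr (fun x => ?_) ?_
    · simp [pK]
    · simp [sK, Nk]
  | succ K ih =>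
    refine (ih.add ((MFE_Fj hm (K + 1) 0).smul
      ((-1) ^ (K + 1) / ∏ i ∈ range (K + 1), (4 ^ (i + 1) - 1)))).congr (fun x => pK_succ K x) ?_
    rw [sK, sum_range_succ, ← sK]
    simp [Nk]
    ring

/-- The twisted `k`-th moment. -/
def MoE (D : DatE ι) (k : ℕ) (c c' : F4) (X : ℕ) : ℝ :=
  ∑ S ∈ Sx ι X, (D.kcE c S : ℝ) ^ k * sg (F4.tr (c' * D.A S))

theorem MoE_zero (D : DatE ι) (c c' : F4) (X : ℕ) : MoE D 0 c c' X = Mo D.toDat 0 c' X := by
  simp only [MoE, Mo, pow_zero]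

/-- All the twisted moments have the right size. -/
theorem moEOK {D : DatE ι} (hD : D.OK) (k : ℕ) (c c' : F4) (ε : ℝ) (hε : 0 < ε) :
    ∃ X₀ : ℕ, ∀ X : ℕ, X₀ ≤ X →
      |MoE D k c c' X - (if c' = 0 then (Nk k : ℝ) else 0) * (Sx ι X).card| ≤ ε * X := by
  rcases Nat.eq_zero_or_pos k with rfl | hk
  · simp only [MoE_zero]
    exact Mo_zero hD.toOK.h3 c' ε hε
  · have h4 : (0 : ℝ) < 4 ^ k := by positivity
    have hpos : 0 < ε / 4 ^ k := by positivity
    choose X1 h1 using fun x y => engineE D hD (LSkE k c c' x y) (LSkE_OK hk c c' x y)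
      (ε / 4 ^ k) hpos
    refine ⟨∑ y, ∑ x, X1 x y, fun X hX => ?_⟩
    have hX1 : ∀ x y, X1 x y ≤ X := fun x y =>
      ((single_le_sum (f := fun x => X1 x y) (fun _ _ => Nat.zero_le _) (mem_univ x)).trans
        (single_le_sum (f := fun y => ∑ x, X1 x y) (fun _ _ => Nat.zero_le _)
          (mem_univ y))).trans hX
    set T : (Fin k → F4) → (Fin k → F4) → ℝ := fun x y => ∑ S ∈ Sx ι X,
      (((4 ^ k : ℕ) : ℝ)⁻¹) ^ S.card * ∑ f : S → Lab k, sg (D.eS (LSkE k c c' x y) S f) with hT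
    set M : (Fin k → F4) → (Fin k → F4) → ℝ := fun x y => ∑ U ∈ Us k,
      cUE (LSkE k c c' x y).o c c' x y U with hM
    have h2 : ∀ x y, |T x y - M x y * (Sx ι X).card| ≤ ε / 4 ^ k * X := fun x y =>
      h1 x y X (hX1 x y)
    have h3 : MoE D k c c' X = (∑ y, ∑ x, sg (F4.tr (c * (x ⬝ᵥ y))) * T x y) / 4 ^ k := by
      rw [MoE]
      simp only [kcE_pow_eq]
      rw [← sum_div, sum_comm]
      congr 1
      refine sum_congr rfl fun y _ => ?_
      rw [sum_comm]
      refine sum_congr rfl fun x _ => ?_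
      rw [hT, mul_sum]
    have h5 : (if c' = 0 then (Nk k : ℝ) else 0) =
        (∑ y, ∑ x, sg (F4.tr (c * (x ⬝ᵥ y))) * M x y) / 4 ^ k := by
      have h6 := K3E (k := k) (fun l => (Fintype.equivFin (Lab k) l : ℕ))
        (fun _ _ h => (Fintype.equivFin (Lab k)).injective (Fin.val_injective h)) c c'
      have h7 : ∑ y, ∑ x, sg (F4.tr (c * (x ⬝ᵥ y))) * M x y =
          if c' = 0 then (4 : ℝ) ^ k * Nk k else 0 := h6
      rw [h7]
      split_ifs
      · field_simp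
      · rw [zero_div]
    have h8 : MoE D k c c' X - (if c' = 0 then (Nk k : ℝ) else 0) * (Sx ι X).card =
        (∑ y, ∑ x, sg (F4.tr (c * (x ⬝ᵥ y))) * (T x y - M x y * (Sx ι X).card)) / 4 ^ k := by
      rw [h3, h5, div_mul_eq_mul_div, ← sub_div, sum_mul, ← sum_sub_distrib]
      congr 1
      refine sum_congr rfl fun y _ => ?_
      rw [sum_mul, ← sum_sub_distrib]
      refine sum_congr rfl fun x _ => ?_
      ring
    have h9 : |∑ y, ∑ x, sg (F4.tr (c * (x ⬝ᵥ y))) * (T x y - M x y * (Sx ι X).card)| ≤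
        ∑ _y : Fin k → F4, ∑ _x : Fin k → F4, ε / 4 ^ k * X := by
      refine (abs_sum_le_sum_abs _ _).trans (sum_le_sum fun y _ => ?_)
      refine (abs_sum_le_sum_abs _ _).trans (sum_le_sum fun x _ => ?_)
      rw [abs_mul, abs_sg, one_mul]
      exact h2 x y
    rw [h8, abs_div, abs_of_pos h4, div_le_iff₀ h4]
    refine h9.trans (le_of_eq ?_)
    simp only [sum_const, card_univ, card_Vk, nsmul_eq_mul]
    push_cast
    field_simp

theorem MFE_of_moments {D : DatE ι} (hD : D.OK) (c : F4) (k : ℕ) :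
    MFE D c (fun x => x ^ k) (Nk k) := by
  intro ε hε
  set N : ℝ := (Nk k : ℝ) with hN
  have hN0 : 0 ≤ N := Nat.cast_nonneg _
  have hpos : 0 < ε / (1 + N) := by positivity
  choose X1 h1 using fun c' => moEOK hD k c c' (ε / (1 + N)) hpos
  choose X2 h2 using fun c' => moEOK hD 0 c c' (ε / (1 + N)) hpos
  refine ⟨∑ c', X1 c' + ∑ c', X2 c', fun X hX α => ?_⟩
  have hX1 : ∀ c', X1 c' ≤ X := fun c' =>
    (single_le_sum (fun _ _ => Nat.zero_le _) (mem_univ c')).trans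
      ((Nat.le_add_right _ _).trans hX)
  have hX2 : ∀ c', X2 c' ≤ X := fun c' =>
    (single_le_sum (fun _ _ => Nat.zero_le _) (mem_univ c')).trans
      ((Nat.le_add_left _ _).trans hX)
  have e1 : ∑ S ∈ SA D.toDat X α, (D.kcE c S : ℝ) ^ k =
      (∑ c' : F4, sg (F4.tr (c' * α)) * MoE D k c c' X) / 4 := sum_class D.toDat X α _
  have e0 : ((SA D.toDat X α).card : ℝ) =
      (∑ c' : F4, sg (F4.tr (c' * α)) * MoE D 0 c c' X) / 4 := by
    rw [card_SA]
    simp only [MoE_zero]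
  rw [e1, e0]
  have e2 : (∑ c' : F4, sg (F4.tr (c' * α)) * MoE D k c c' X) / 4 -
      N * ((∑ c' : F4, sg (F4.tr (c' * α)) * MoE D 0 c c' X) / 4) =
      (∑ c' : F4, sg (F4.tr (c' * α)) * (MoE D k c c' X - N * MoE D 0 c c' X)) / 4 := by
    simp only [mul_sub, sum_sub_distrib]
    have : ∑ c' : F4, sg (F4.tr (c' * α)) * (N * MoE D 0 c c' X) =
        N * ∑ c' : F4, sg (F4.tr (c' * α)) * MoE D 0 c c' X := by
      rw [mul_sum]
      exact sum_congr rfl fun c' _ => by ring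
    rw [this]
    ring
  rw [e2]
  have e3 : ∀ c', |MoE D k c c' X - N * MoE D 0 c c' X| ≤ ε * X := by
    intro c'
    have h3 := h1 c' X (hX1 c')
    have h4 := h2 c' X (hX2 c')
    have h5 : MoE D k c c' X - N * MoE D 0 c c' X =
        (MoE D k c c' X - (if c' = 0 then (Nk k : ℝ) else 0) * (Sx ι X).card) -
        N * (MoE D 0 c c' X - (if c' = 0 then (Nk 0 : ℝ) else 0) * (Sx ι X).card) := by
      rw [← hN]
      split_ifs
      · simp only [Nk, prod_range_zero, Nat.cast_one]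
        ring
      · ring
    rw [h5]
    calc _ ≤ |MoE D k c c' X - (if c' = 0 then (Nk k : ℝ) else 0) * (Sx ι X).card| +
          |N * (MoE D 0 c c' X - (if c' = 0 then (Nk 0 : ℝ) else 0) * (Sx ι X).card)| :=
            abs_sub _ _
      _ ≤ ε / (1 + N) * X + N * (ε / (1 + N) * X) := by
          rw [abs_mul, abs_of_nonneg hN0]
          exact add_le_add h3 (mul_le_mul_of_nonneg_left h4 hN0)
      _ = ε * X := by field_simp
  rw [abs_div, abs_of_pos (by norm_num : (0 : ℝ) < 4), div_le_iff₀ (by norm_num)]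
  calc |∑ c' : F4, sg (F4.tr (c' * α)) * (MoE D k c c' X - N * MoE D 0 c c' X)|
      ≤ ∑ c' : F4, |sg (F4.tr (c' * α)) * (MoE D k c c' X - N * MoE D 0 c c' X)| :=
        abs_sum_le_sum_abs _ _
    _ ≤ ∑ _c : F4, ε * X := by
        refine sum_le_sum fun c' _ => ?_
        rw [abs_mul, abs_sg, one_mul]
        exact e3 c'
    _ = ε * X * 4 := by
        rw [sum_const, card_univ, F4.card_F4, nsmul_eq_mul]
        push_cast
        ring

/-- **Phase E, part D.** In every class `α` the lower density of the `S` for which the matrix of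
the even class `c` is invertible is at least the infinite product. -/
theorem densityE {D : DatE ι} (hD : D.OK) (c : F4) {κ : ℝ} (hκ : κ < cinf) (ε : ℝ) (hε : 0 < ε) :
    ∃ X₀ : ℕ, ∀ X : ℕ, X₀ ≤ X → ∀ α : F4,
      κ * (((Sx ι X).filter fun S => D.A S = α).card : ℝ) - ε * X ≤
        ((Sx ι X).filter fun S => D.A S = α ∧ (D.NE c S).det ≠ 0).card := by
  obtain ⟨K, hK, h1⟩ := exists_odd hκ
  obtain ⟨X0, h0⟩ := MFE_pK (MFE_of_moments hD c) K ε hε
  refine ⟨X0, fun X hX α => ?_⟩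
  have h2 := h0 X hX α
  have h3 : ∑ S ∈ SA D.toDat X α, pK K (D.kcE c S) ≤
      (((Sx ι X).filter fun S => D.A S = α ∧ (D.NE c S).det ≠ 0).card : ℝ) := by
    rw [← filter_filter, card_eq_sum_ones, sum_filter]
    push_cast
    refine sum_le_sum fun S _ => ?_
    split_ifs with hd
    · rw [(kcE_eq_one D c S).2 hd]
      push_cast
      rw [pK_one]
    · obtain ⟨r, hr⟩ := kcE_pow D c S
      have hr0 : r ≠ 0 := by
        intro h0
        rw [h0, pow_zero] at hr
        exact hd ((kcE_eq_one D c S).1 hr)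
      rw [hr]
      push_cast
      exact (pK_pow K r hr0).1 hK
  have h4 := (abs_le.1 h2).1
  have h5 := mul_le_mul_of_nonneg_right h1.le (Nat.cast_nonneg (α := ℝ) (SA D.toDat X α).card)
  rw [SA] at h3 h4 h5
  linarith

end

end Pool.Agent.Lib.MP_1a91b9_ntE.Dc
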