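import Pool.Agent.Lib.MP_1a91b9_ntE.D.MomE

/-!
# MP_1a91b9_nt (TwistDensity, even classes), part D: the upper bound
-/

set_option autoImplicit false

namespace Pool.Agent.Lib.MP_1a91b9_ntE.Dc

open Finset Pool.Agent.Lib.MP_1a91b9_ntH Pool.Agent.Lib.MP_1a91b9_ntH.Da

noncomputable section

variable {ι : Type} [DecidableEq ι] [PS ι]

/-- In every class `α` the upper density of the `S` for which the matrix of the even class `c` is
invertible is at most the infinite product. -/
theorem densityE_upper {D : DatE ι} (hD : D.OK) (c : F4) {κ : ℝ} (hκ : cinf < κ) (ε : ℝ)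
    (hε : 0 < ε) : ∃ X₀ : ℕ, ∀ X : ℕ, X₀ ≤ X → ∀ α : F4,
      (((Sx ι X).filter fun S => D.A S = α ∧ (D.NE c S).det ≠ 0).card : ℝ) ≤
        κ * (((Sx ι X).filter fun S => D.A S = α).card : ℝ) + ε * X := by
  obtain ⟨K, hK, h1⟩ := exists_even hκ
  obtain ⟨X0, h0⟩ := MFE_pK (MFE_of_moments hD c) K ε hε
  refine ⟨X0, fun X hX α => ?_⟩
  have h2 := h0 X hX α
  have h3 : (((Sx ι X).filter fun S => D.A S = α ∧ (D.NE c S).det ≠ 0).card : ℝ) ≤
      ∑ S ∈ SA D.toDat X α, pK K (D.kcE c S) := by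
    rw [← filter_filter, card_eq_sum_ones, sum_filter]
    push_cast
    refine sum_le_sum fun S _ => ?_
    split_ifs with hd
    · rw [(kcE_eq_one D c S).2 hd]
      push_cast
      rw [pK_one]
    · obtain ⟨r, hr⟩ := kcE_pow D c S
      have hr0 : r ≠ 0 := by
        intro h0
        rw [h0, pow_zero] at hr
        exact hd ((kcE_eq_one D c S).1 hr)
      rw [hr]
      push_cast
      exact (pK_pow K r hr0).2 hK
  have h4 := (abs_le.1 h2).2
  have h5 := mul_le_mul_of_nonneg_right h1.le (Nat.cast_nonneg (α := ℝ) (SA D.toDat X α).card)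
  rw [SA] at h3 h4 h5
  linarith

end

end Pool.Agent.Lib.MP_1a91b9_ntE.Dc
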